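import Pool.Agent.H962.KDat

/-!
# Check of the simplices
-/

set_option autoImplicit false

namespace Pool.Agent.W2helper66.DT.KD

open Pool.Agent.H962 Pool.Agent.H962.KD

lemma t0_0 : allLt (fun j => blkT 0 (Nat.add 0 j)) 74 = true := by decide +kernel

lemma t0_74 : allLt (fun j => blkT 0 (Nat.add 74 j)) 45 = true := by decide +kernel

lemma t0_119 : allLt (fun j => blkT 0 (Nat.add 119 j)) 46 = true := by decide +kernel

lemma t0_165 : allLt (fun j => blkT 0 (Nat.add 165 j)) 48 = true := by decide +kernel

lemma t0_213 : allLt (fun j => blkT 0 (Nat.add 213 j)) 56 = true := by decide +kernel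

lemma t0_269 : allLt (fun j => blkT 0 (Nat.add 269 j)) 88 = true := by decide +kernel

lemma t0_357 : allLt (fun j => blkT 0 (Nat.add 357 j)) 102 = true := by decide +kernel

lemma r0_0 : allLt (fun j => blkR 0 (Nat.add 0 j)) 83 = true := by decide +kernel

lemma r0_83 : allLt (fun j => blkR 0 (Nat.add 83 j)) 14 = true := by decide +kernel

lemma rowC0 : rowC 0 = true := by decide +kernel

lemma t1_0 : allLt (fun j => blkT 1 (Nat.add 0 j)) 60 = true := by decide +kernel

lemma t1_60 : allLt (fun j => blkT 1 (Nat.add 60 j)) 29 = true := by decide +kernel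

lemma t1_89 : allLt (fun j => blkT 1 (Nat.add 89 j)) 28 = true := by decide +kernel

lemma t1_117 : allLt (fun j => blkT 1 (Nat.add 117 j)) 28 = true := by decide +kernel

lemma t1_145 : allLt (fun j => blkT 1 (Nat.add 145 j)) 27 = true := by decide +kernel

lemma t1_172 : allLt (fun j => blkT 1 (Nat.add 172 j)) 18 = true := by decide +kernel

lemma t1_190 : allLt (fun j => blkT 1 (Nat.add 190 j)) 25 = true := by decide +kernel

lemma t1_215 : allLt (fun j => blkT 1 (Nat.add 215 j)) 31 = true := by decide +kernel

lemma t1_246 : allLt (fun j => blkT 1 (Nat.add 246 j)) 37 = true := by decide +kernel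

lemma t1_283 : allLt (fun j => blkT 1 (Nat.add 283 j)) 53 = true := by decide +kernel

lemma t1_336 : allLt (fun j => blkT 1 (Nat.add 336 j)) 114 = true := by decide +kernel

lemma t1_450 : allLt (fun j => blkT 1 (Nat.add 450 j)) 9 = true := by decide +kernel

lemma r1_0 : allLt (fun j => blkR 1 (Nat.add 0 j)) 38 = true := by decide +kernel

lemma r1_38 : allLt (fun j => blkR 1 (Nat.add 38 j)) 36 = true := by decide +kernel

lemma r1_74 : allLt (fun j => blkR 1 (Nat.add 74 j)) 23 = true := by decide +kernel

lemma rowC1 : rowC 1 = true := by decide +kernel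

lemma t2_0 : allLt (fun j => blkT 2 (Nat.add 0 j)) 59 = true := by decide +kernel

lemma t2_59 : allLt (fun j => blkT 2 (Nat.add 59 j)) 26 = true := by decide +kernel

lemma t2_85 : allLt (fun j => blkT 2 (Nat.add 85 j)) 28 = true := by decide +kernel

lemma t2_113 : allLt (fun j => blkT 2 (Nat.add 113 j)) 28 = true := by decide +kernel

lemma t2_141 : allLt (fun j => blkT 2 (Nat.add 141 j)) 28 = true := by decide +kernel

lemma t2_169 : allLt (fun j => blkT 2 (Nat.add 169 j)) 27 = true := by decide +kernel

lemma t2_196 : allLt (fun j => blkT 2 (Nat.add 196 j)) 10 = true := by decide +kernel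

lemma t2_206 : allLt (fun j => blkT 2 (Nat.add 206 j)) 15 = true := by decide +kernel

lemma t2_221 : allLt (fun j => blkT 2 (Nat.add 221 j)) 1 = true := by decide +kernel

lemma t2_222 : allLt (fun j => blkT 2 (Nat.add 222 j)) 8 = true := by decide +kernel

lemma t2_230 : allLt (fun j => blkT 2 (Nat.add 230 j)) 12 = true := by decide +kernel

lemma t2_242 : allLt (fun j => blkT 2 (Nat.add 242 j)) 20 = true := by decide +kernel

lemma t2_262 : allLt (fun j => blkT 2 (Nat.add 262 j)) 34 = true := by decide +kernel

lemma t2_296 : allLt (fun j => blkT 2 (Nat.add 296 j)) 49 = true := by decide +kernel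

lemma t2_345 : allLt (fun j => blkT 2 (Nat.add 345 j)) 114 = true := by decide +kernel

lemma r2_0 : allLt (fun j => blkR 2 (Nat.add 0 j)) 26 = true := by decide +kernel

lemma r2_26 : allLt (fun j => blkR 2 (Nat.add 26 j)) 24 = true := by decide +kernel

lemma r2_50 : allLt (fun j => blkR 2 (Nat.add 50 j)) 29 = true := by decide +kernel

lemma r2_79 : allLt (fun j => blkR 2 (Nat.add 79 j)) 18 = true := by decide +kernel

lemma rowC2 : rowC 2 = true := by decide +kernel

lemma t3_0 : allLt (fun j => blkT 3 (Nat.add 0 j)) 59 = true := by decide +kernel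

lemma t3_59 : allLt (fun j => blkT 3 (Nat.add 59 j)) 23 = true := by decide +kernel

lemma t3_82 : allLt (fun j => blkT 3 (Nat.add 82 j)) 25 = true := by decide +kernel

lemma t3_107 : allLt (fun j => blkT 3 (Nat.add 107 j)) 28 = true := by decide +kernel

lemma t3_135 : allLt (fun j => blkT 3 (Nat.add 135 j)) 28 = true := by decide +kernel

lemma t3_163 : allLt (fun j => blkT 3 (Nat.add 163 j)) 28 = true := by decide +kernel

lemma t3_191 : allLt (fun j => blkT 3 (Nat.add 191 j)) 28 = true := by decide +kernel

lemma t3_219 : allLt (fun j => blkT 3 (Nat.add 219 j)) 19 = true := by decide +kernel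

lemma t3_238 : allLt (fun j => blkT 3 (Nat.add 238 j)) 4 = true := by decide +kernel

lemma t3_242 : allLt (fun j => blkT 3 (Nat.add 242 j)) 14 = true := by decide +kernel

lemma t3_256 : allLt (fun j => blkT 3 (Nat.add 256 j)) 7 = true := by decide +kernel

lemma t3_263 : allLt (fun j => blkT 3 (Nat.add 263 j)) 11 = true := by decide +kernel

lemma t3_274 : allLt (fun j => blkT 3 (Nat.add 274 j)) 8 = true := by decide +kernel

lemma t3_282 : allLt (fun j => blkT 3 (Nat.add 282 j)) 13 = true := by decide +kernel

end Pool.Agent.W2helper66.DT.KD
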