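import Pool.Agent.H962.KDat

/-!
# Check of the simplices
-/

set_option autoImplicit false

namespace Pool.Agent.W2helper66.DT.KD

open Pool.Agent.H962 Pool.Agent.H962.KD

lemma t3_295 : allLt (fun j => blkT 3 (Nat.add 295 j)) 14 = true := by decide +kernel

lemma t3_309 : allLt (fun j => blkT 3 (Nat.add 309 j)) 11 = true := by decide +kernel

lemma t3_320 : allLt (fun j => blkT 3 (Nat.add 320 j)) 29 = true := by decide +kernel

lemma t3_349 : allLt (fun j => blkT 3 (Nat.add 349 j)) 41 = true := by decide +kernel

lemma t3_390 : allLt (fun j => blkT 3 (Nat.add 390 j)) 69 = true := by decide +kernel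

lemma r3_0 : allLt (fun j => blkR 3 (Nat.add 0 j)) 19 = true := by decide +kernel

lemma r3_19 : allLt (fun j => blkR 3 (Nat.add 19 j)) 16 = true := by decide +kernel

lemma r3_35 : allLt (fun j => blkR 3 (Nat.add 35 j)) 17 = true := by decide +kernel

lemma r3_52 : allLt (fun j => blkR 3 (Nat.add 52 j)) 13 = true := by decide +kernel

lemma r3_65 : allLt (fun j => blkR 3 (Nat.add 65 j)) 12 = true := by decide +kernel

lemma r3_77 : allLt (fun j => blkR 3 (Nat.add 77 j)) 16 = true := by decide +kernel

lemma r3_93 : allLt (fun j => blkR 3 (Nat.add 93 j)) 4 = true := by decide +kernel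

lemma rowC3 : rowC 3 = true := by decide +kernel

lemma t4_0 : allLt (fun j => blkT 4 (Nat.add 0 j)) 52 = true := by decide +kernel

lemma t4_52 : allLt (fun j => blkT 4 (Nat.add 52 j)) 29 = true := by decide +kernel

lemma t4_81 : allLt (fun j => blkT 4 (Nat.add 81 j)) 28 = true := by decide +kernel

lemma t4_109 : allLt (fun j => blkT 4 (Nat.add 109 j)) 28 = true := by decide +kernel

lemma t4_137 : allLt (fun j => blkT 4 (Nat.add 137 j)) 28 = true := by decide +kernel

lemma t4_165 : allLt (fun j => blkT 4 (Nat.add 165 j)) 28 = true := by decide +kernel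

lemma t4_193 : allLt (fun j => blkT 4 (Nat.add 193 j)) 28 = true := by decide +kernel

lemma t4_221 : allLt (fun j => blkT 4 (Nat.add 221 j)) 28 = true := by decide +kernel

lemma t4_249 : allLt (fun j => blkT 4 (Nat.add 249 j)) 28 = true := by decide +kernel

lemma t4_277 : allLt (fun j => blkT 4 (Nat.add 277 j)) 26 = true := by decide +kernel

lemma t4_303 : allLt (fun j => blkT 4 (Nat.add 303 j)) 11 = true := by decide +kernel

lemma t4_314 : allLt (fun j => blkT 4 (Nat.add 314 j)) 15 = true := by decide +kernel

lemma t4_329 : allLt (fun j => blkT 4 (Nat.add 329 j)) 25 = true := by decide +kernel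

lemma t4_354 : allLt (fun j => blkT 4 (Nat.add 354 j)) 52 = true := by decide +kernel

lemma t4_406 : allLt (fun j => blkT 4 (Nat.add 406 j)) 53 = true := by decide +kernel

lemma r4_0 : allLt (fun j => blkR 4 (Nat.add 0 j)) 23 = true := by decide +kernel

lemma r4_23 : allLt (fun j => blkR 4 (Nat.add 23 j)) 24 = true := by decide +kernel

lemma r4_47 : allLt (fun j => blkR 4 (Nat.add 47 j)) 26 = true := by decide +kernel

lemma r4_73 : allLt (fun j => blkR 4 (Nat.add 73 j)) 21 = true := by decide +kernel

lemma r4_94 : allLt (fun j => blkR 4 (Nat.add 94 j)) 3 = true := by decide +kernel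

lemma rowC4 : rowC 4 = true := by decide +kernel

lemma t5_0 : allLt (fun j => blkT 5 (Nat.add 0 j)) 19 = true := by decide +kernel

lemma t5_19 : allLt (fun j => blkT 5 (Nat.add 19 j)) 21 = true := by decide +kernel

lemma t5_40 : allLt (fun j => blkT 5 (Nat.add 40 j)) 36 = true := by decide +kernel

lemma t5_76 : allLt (fun j => blkT 5 (Nat.add 76 j)) 28 = true := by decide +kernel

lemma t5_104 : allLt (fun j => blkT 5 (Nat.add 104 j)) 28 = true := by decide +kernel

lemma t5_132 : allLt (fun j => blkT 5 (Nat.add 132 j)) 28 = true := by decide +kernel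

lemma t5_160 : allLt (fun j => blkT 5 (Nat.add 160 j)) 28 = true := by decide +kernel

lemma t5_188 : allLt (fun j => blkT 5 (Nat.add 188 j)) 28 = true := by decide +kernel

lemma t5_216 : allLt (fun j => blkT 5 (Nat.add 216 j)) 28 = true := by decide +kernel

lemma t5_244 : allLt (fun j => blkT 5 (Nat.add 244 j)) 28 = true := by decide +kernel

lemma t5_272 : allLt (fun j => blkT 5 (Nat.add 272 j)) 28 = true := by decide +kernel

lemma t5_300 : allLt (fun j => blkT 5 (Nat.add 300 j)) 24 = true := by decide +kernel

lemma t5_324 : allLt (fun j => blkT 5 (Nat.add 324 j)) 16 = true := by decide +kernel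

lemma t5_340 : allLt (fun j => blkT 5 (Nat.add 340 j)) 2 = true := by decide +kernel

lemma t5_342 : allLt (fun j => blkT 5 (Nat.add 342 j)) 17 = true := by decide +kernel

lemma t5_359 : allLt (fun j => blkT 5 (Nat.add 359 j)) 30 = true := by decide +kernel

lemma t5_389 : allLt (fun j => blkT 5 (Nat.add 389 j)) 70 = true := by decide +kernel

lemma r5_0 : allLt (fun j => blkR 5 (Nat.add 0 j)) 22 = true := by decide +kernel

lemma r5_22 : allLt (fun j => blkR 5 (Nat.add 22 j)) 23 = true := by decide +kernel

lemma r5_45 : allLt (fun j => blkR 5 (Nat.add 45 j)) 26 = true := by decide +kernel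

lemma r5_71 : allLt (fun j => blkR 5 (Nat.add 71 j)) 21 = true := by decide +kernel

lemma r5_92 : allLt (fun j => blkR 5 (Nat.add 92 j)) 5 = true := by decide +kernel

lemma rowC5 : rowC 5 = true := by decide +kernel

lemma t6_0 : allLt (fun j => blkT 6 (Nat.add 0 j)) 19 = true := by decide +kernel

lemma t6_19 : allLt (fun j => blkT 6 (Nat.add 19 j)) 1 = true := by decide +kernel

lemma t6_20 : allLt (fun j => blkT 6 (Nat.add 20 j)) 34 = true := by decide +kernel

lemma t6_54 : allLt (fun j => blkT 6 (Nat.add 54 j)) 28 = true := by decide +kernel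

end Pool.Agent.W2helper66.DT.KD
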