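import Pool.Agent.H962.KDat

/-!
# Check of the simplices
-/

set_option autoImplicit false

namespace Pool.Agent.W2helper66.DT.KD

open Pool.Agent.H962 Pool.Agent.H962.KD

lemma t19_235 : allLt (fun j => blkT 19 (Nat.add 235 j)) 28 = true := by decide +kernel

lemma t19_263 : allLt (fun j => blkT 19 (Nat.add 263 j)) 28 = true := by decide +kernel

lemma t19_291 : allLt (fun j => blkT 19 (Nat.add 291 j)) 28 = true := by decide +kernel

lemma t19_319 : allLt (fun j => blkT 19 (Nat.add 319 j)) 28 = true := by decide +kernel

lemma t19_347 : allLt (fun j => blkT 19 (Nat.add 347 j)) 28 = true := by decide +kernel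

lemma t19_375 : allLt (fun j => blkT 19 (Nat.add 375 j)) 28 = true := by decide +kernel

lemma t19_403 : allLt (fun j => blkT 19 (Nat.add 403 j)) 21 = true := by decide +kernel

lemma t19_424 : allLt (fun j => blkT 19 (Nat.add 424 j)) 4 = true := by decide +kernel

lemma t19_428 : allLt (fun j => blkT 19 (Nat.add 428 j)) 2 = true := by decide +kernel

lemma t19_430 : allLt (fun j => blkT 19 (Nat.add 430 j)) 1 = true := by decide +kernel

lemma t19_431 : allLt (fun j => blkT 19 (Nat.add 431 j)) 1 = true := by decide +kernel

lemma t19_432 : allLt (fun j => blkT 19 (Nat.add 432 j)) 1 = true := by decide +kernel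

lemma t19_433 : allLt (fun j => blkT 19 (Nat.add 433 j)) 1 = true := by decide +kernel

lemma t19_434 : allLt (fun j => blkT 19 (Nat.add 434 j)) 1 = true := by decide +kernel

lemma t19_435 : allLt (fun j => blkT 19 (Nat.add 435 j)) 2 = true := by decide +kernel

lemma t19_437 : allLt (fun j => blkT 19 (Nat.add 437 j)) 2 = true := by decide +kernel

lemma t19_439 : allLt (fun j => blkT 19 (Nat.add 439 j)) 20 = true := by decide +kernel

lemma r19_0 : allLt (fun j => blkR 19 (Nat.add 0 j)) 5 = true := by decide +kernel

lemma r19_5 : allLt (fun j => blkR 19 (Nat.add 5 j)) 6 = true := by decide +kernel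

lemma r19_11 : allLt (fun j => blkR 19 (Nat.add 11 j)) 7 = true := by decide +kernel

lemma r19_18 : allLt (fun j => blkR 19 (Nat.add 18 j)) 7 = true := by decide +kernel

lemma r19_25 : allLt (fun j => blkR 19 (Nat.add 25 j)) 7 = true := by decide +kernel

lemma r19_32 : allLt (fun j => blkR 19 (Nat.add 32 j)) 7 = true := by decide +kernel

lemma r19_39 : allLt (fun j => blkR 19 (Nat.add 39 j)) 7 = true := by decide +kernel

lemma r19_46 : allLt (fun j => blkR 19 (Nat.add 46 j)) 5 = true := by decide +kernel

lemma r19_51 : allLt (fun j => blkR 19 (Nat.add 51 j)) 1 = true := by decide +kernel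

lemma r19_52 : allLt (fun j => blkR 19 (Nat.add 52 j)) 1 = true := by decide +kernel

lemma r19_53 : allLt (fun j => blkR 19 (Nat.add 53 j)) 1 = true := by decide +kernel

lemma r19_54 : allLt (fun j => blkR 19 (Nat.add 54 j)) 1 = true := by decide +kernel

lemma r19_55 : allLt (fun j => blkR 19 (Nat.add 55 j)) 1 = true := by decide +kernel

lemma r19_56 : allLt (fun j => blkR 19 (Nat.add 56 j)) 1 = true := by decide +kernel

lemma r19_57 : allLt (fun j => blkR 19 (Nat.add 57 j)) 1 = true := by decide +kernel

lemma r19_58 : allLt (fun j => blkR 19 (Nat.add 58 j)) 1 = true := by decide +kernel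

lemma r19_59 : allLt (fun j => blkR 19 (Nat.add 59 j)) 1 = true := by decide +kernel

lemma r19_60 : allLt (fun j => blkR 19 (Nat.add 60 j)) 1 = true := by decide +kernel

lemma r19_61 : allLt (fun j => blkR 19 (Nat.add 61 j)) 2 = true := by decide +kernel

lemma r19_63 : allLt (fun j => blkR 19 (Nat.add 63 j)) 34 = true := by decide +kernel

lemma rowC19 : rowC 19 = true := by decide +kernel

lemma t20_0 : allLt (fun j => blkT 20 (Nat.add 0 j)) 88 = true := by decide +kernel

lemma t20_88 : allLt (fun j => blkT 20 (Nat.add 88 j)) 17 = true := by decide +kernel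

lemma t20_105 : allLt (fun j => blkT 20 (Nat.add 105 j)) 2 = true := by decide +kernel

lemma t20_107 : allLt (fun j => blkT 20 (Nat.add 107 j)) 1 = true := by decide +kernel

lemma t20_108 : allLt (fun j => blkT 20 (Nat.add 108 j)) 1 = true := by decide +kernel

lemma t20_109 : allLt (fun j => blkT 20 (Nat.add 109 j)) 1 = true := by decide +kernel

lemma t20_110 : allLt (fun j => blkT 20 (Nat.add 110 j)) 1 = true := by decide +kernel

lemma t20_111 : allLt (fun j => blkT 20 (Nat.add 111 j)) 10 = true := by decide +kernel

lemma t20_121 : allLt (fun j => blkT 20 (Nat.add 121 j)) 7 = true := by decide +kernel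

lemma t20_128 : allLt (fun j => blkT 20 (Nat.add 128 j)) 1 = true := by decide +kernel

lemma t20_129 : allLt (fun j => blkT 20 (Nat.add 129 j)) 1 = true := by decide +kernel

lemma t20_130 : allLt (fun j => blkT 20 (Nat.add 130 j)) 1 = true := by decide +kernel

lemma t20_131 : allLt (fun j => blkT 20 (Nat.add 131 j)) 17 = true := by decide +kernel

lemma t20_148 : allLt (fun j => blkT 20 (Nat.add 148 j)) 2 = true := by decide +kernel

lemma t20_150 : allLt (fun j => blkT 20 (Nat.add 150 j)) 17 = true := by decide +kernel

lemma t20_167 : allLt (fun j => blkT 20 (Nat.add 167 j)) 1 = true := by decide +kernel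

lemma t20_168 : allLt (fun j => blkT 20 (Nat.add 168 j)) 5 = true := by decide +kernel

lemma t20_173 : allLt (fun j => blkT 20 (Nat.add 173 j)) 22 = true := by decide +kernel

lemma t20_195 : allLt (fun j => blkT 20 (Nat.add 195 j)) 28 = true := by decide +kernel

lemma t20_223 : allLt (fun j => blkT 20 (Nat.add 223 j)) 28 = true := by decide +kernel

lemma t20_251 : allLt (fun j => blkT 20 (Nat.add 251 j)) 28 = true := by decide +kernel

end Pool.Agent.W2helper66.DT.KD
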