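import Pool.Agent.H962.KDat

/-!
# Check of the simplices
-/

set_option autoImplicit false

namespace Pool.Agent.W2helper66.DT.KD

open Pool.Agent.H962 Pool.Agent.H962.KD

lemma t20_279 : allLt (fun j => blkT 20 (Nat.add 279 j)) 28 = true := by decide +kernel

lemma t20_307 : allLt (fun j => blkT 20 (Nat.add 307 j)) 28 = true := by decide +kernel

lemma t20_335 : allLt (fun j => blkT 20 (Nat.add 335 j)) 28 = true := by decide +kernel

lemma t20_363 : allLt (fun j => blkT 20 (Nat.add 363 j)) 28 = true := by decide +kernel

lemma t20_391 : allLt (fun j => blkT 20 (Nat.add 391 j)) 28 = true := by decide +kernel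

lemma t20_419 : allLt (fun j => blkT 20 (Nat.add 419 j)) 9 = true := by decide +kernel

lemma t20_428 : allLt (fun j => blkT 20 (Nat.add 428 j)) 3 = true := by decide +kernel

lemma t20_431 : allLt (fun j => blkT 20 (Nat.add 431 j)) 2 = true := by decide +kernel

lemma t20_433 : allLt (fun j => blkT 20 (Nat.add 433 j)) 2 = true := by decide +kernel

lemma t20_435 : allLt (fun j => blkT 20 (Nat.add 435 j)) 3 = true := by decide +kernel

lemma t20_438 : allLt (fun j => blkT 20 (Nat.add 438 j)) 2 = true := by decide +kernel

lemma t20_440 : allLt (fun j => blkT 20 (Nat.add 440 j)) 19 = true := by decide +kernel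

lemma r20_0 : allLt (fun j => blkR 20 (Nat.add 0 j)) 2 = true := by decide +kernel

lemma r20_2 : allLt (fun j => blkR 20 (Nat.add 2 j)) 2 = true := by decide +kernel

lemma r20_4 : allLt (fun j => blkR 20 (Nat.add 4 j)) 3 = true := by decide +kernel

lemma r20_7 : allLt (fun j => blkR 20 (Nat.add 7 j)) 4 = true := by decide +kernel

lemma r20_11 : allLt (fun j => blkR 20 (Nat.add 11 j)) 5 = true := by decide +kernel

lemma r20_16 : allLt (fun j => blkR 20 (Nat.add 16 j)) 5 = true := by decide +kernel

lemma r20_21 : allLt (fun j => blkR 20 (Nat.add 21 j)) 6 = true := by decide +kernel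

lemma r20_27 : allLt (fun j => blkR 20 (Nat.add 27 j)) 5 = true := by decide +kernel

lemma r20_32 : allLt (fun j => blkR 20 (Nat.add 32 j)) 5 = true := by decide +kernel

lemma r20_37 : allLt (fun j => blkR 20 (Nat.add 37 j)) 3 = true := by decide +kernel

lemma r20_40 : allLt (fun j => blkR 20 (Nat.add 40 j)) 1 = true := by decide +kernel

lemma r20_41 : allLt (fun j => blkR 20 (Nat.add 41 j)) 1 = true := by decide +kernel

lemma r20_42 : allLt (fun j => blkR 20 (Nat.add 42 j)) 1 = true := by decide +kernel

lemma r20_43 : allLt (fun j => blkR 20 (Nat.add 43 j)) 1 = true := by decide +kernel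

lemma r20_44 : allLt (fun j => blkR 20 (Nat.add 44 j)) 1 = true := by decide +kernel

lemma r20_45 : allLt (fun j => blkR 20 (Nat.add 45 j)) 1 = true := by decide +kernel

lemma r20_46 : allLt (fun j => blkR 20 (Nat.add 46 j)) 1 = true := by decide +kernel

lemma r20_47 : allLt (fun j => blkR 20 (Nat.add 47 j)) 1 = true := by decide +kernel

lemma r20_48 : allLt (fun j => blkR 20 (Nat.add 48 j)) 1 = true := by decide +kernel

lemma r20_49 : allLt (fun j => blkR 20 (Nat.add 49 j)) 1 = true := by decide +kernel

lemma r20_50 : allLt (fun j => blkR 20 (Nat.add 50 j)) 1 = true := by decide +kernel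

lemma r20_51 : allLt (fun j => blkR 20 (Nat.add 51 j)) 1 = true := by decide +kernel

lemma r20_52 : allLt (fun j => blkR 20 (Nat.add 52 j)) 1 = true := by decide +kernel

lemma r20_53 : allLt (fun j => blkR 20 (Nat.add 53 j)) 2 = true := by decide +kernel

lemma r20_55 : allLt (fun j => blkR 20 (Nat.add 55 j)) 42 = true := by decide +kernel

lemma rowC20 : rowC 20 = true := by decide +kernel

lemma t21_0 : allLt (fun j => blkT 21 (Nat.add 0 j)) 103 = true := by decide +kernel

lemma t21_103 : allLt (fun j => blkT 21 (Nat.add 103 j)) 16 = true := by decide +kernel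

lemma t21_119 : allLt (fun j => blkT 21 (Nat.add 119 j)) 5 = true := by decide +kernel

lemma t21_124 : allLt (fun j => blkT 21 (Nat.add 124 j)) 1 = true := by decide +kernel

lemma t21_125 : allLt (fun j => blkT 21 (Nat.add 125 j)) 1 = true := by decide +kernel

lemma t21_126 : allLt (fun j => blkT 21 (Nat.add 126 j)) 2 = true := by decide +kernel

lemma t21_128 : allLt (fun j => blkT 21 (Nat.add 128 j)) 15 = true := by decide +kernel

lemma t21_143 : allLt (fun j => blkT 21 (Nat.add 143 j)) 3 = true := by decide +kernel

lemma t21_146 : allLt (fun j => blkT 21 (Nat.add 146 j)) 1 = true := by decide +kernel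

lemma t21_147 : allLt (fun j => blkT 21 (Nat.add 147 j)) 1 = true := by decide +kernel

lemma t21_148 : allLt (fun j => blkT 21 (Nat.add 148 j)) 17 = true := by decide +kernel

lemma t21_165 : allLt (fun j => blkT 21 (Nat.add 165 j)) 1 = true := by decide +kernel

lemma t21_166 : allLt (fun j => blkT 21 (Nat.add 166 j)) 1 = true := by decide +kernel

end Pool.Agent.W2helper66.DT.KD
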