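import Pool.Agent.H962.KDat

/-!
# Check of the simplices
-/

set_option autoImplicit false

namespace Pool.Agent.W2helper66.DT.KD

open Pool.Agent.H962 Pool.Agent.H962.KD

lemma r22_23 : allLt (fun j => blkR 22 (Nat.add 23 j)) 1 = true := by decide +kernel

lemma r22_24 : allLt (fun j => blkR 22 (Nat.add 24 j)) 1 = true := by decide +kernel

lemma r22_25 : allLt (fun j => blkR 22 (Nat.add 25 j)) 1 = true := by decide +kernel

lemma r22_26 : allLt (fun j => blkR 22 (Nat.add 26 j)) 1 = true := by decide +kernel

lemma r22_27 : allLt (fun j => blkR 22 (Nat.add 27 j)) 1 = true := by decide +kernel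

lemma r22_28 : allLt (fun j => blkR 22 (Nat.add 28 j)) 1 = true := by decide +kernel

lemma r22_29 : allLt (fun j => blkR 22 (Nat.add 29 j)) 1 = true := by decide +kernel

lemma r22_30 : allLt (fun j => blkR 22 (Nat.add 30 j)) 67 = true := by decide +kernel

lemma rowC22 : rowC 22 = true := by decide +kernel

lemma t23_0 : allLt (fun j => blkT 23 (Nat.add 0 j)) 153 = true := by decide +kernel

lemma t23_153 : allLt (fun j => blkT 23 (Nat.add 153 j)) 4 = true := by decide +kernel

lemma t23_157 : allLt (fun j => blkT 23 (Nat.add 157 j)) 16 = true := by decide +kernel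

lemma t23_173 : allLt (fun j => blkT 23 (Nat.add 173 j)) 3 = true := by decide +kernel

lemma t23_176 : allLt (fun j => blkT 23 (Nat.add 176 j)) 2 = true := by decide +kernel

lemma t23_178 : allLt (fun j => blkT 23 (Nat.add 178 j)) 11 = true := by decide +kernel

lemma t23_189 : allLt (fun j => blkT 23 (Nat.add 189 j)) 6 = true := by decide +kernel

lemma t23_195 : allLt (fun j => blkT 23 (Nat.add 195 j)) 2 = true := by decide +kernel

lemma t23_197 : allLt (fun j => blkT 23 (Nat.add 197 j)) 2 = true := by decide +kernel

lemma t23_199 : allLt (fun j => blkT 23 (Nat.add 199 j)) 15 = true := by decide +kernel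

lemma t23_214 : allLt (fun j => blkT 23 (Nat.add 214 j)) 2 = true := by decide +kernel

lemma t23_216 : allLt (fun j => blkT 23 (Nat.add 216 j)) 1 = true := by decide +kernel

lemma t23_217 : allLt (fun j => blkT 23 (Nat.add 217 j)) 7 = true := by decide +kernel

lemma t23_224 : allLt (fun j => blkT 23 (Nat.add 224 j)) 10 = true := by decide +kernel

lemma t23_234 : allLt (fun j => blkT 23 (Nat.add 234 j)) 1 = true := by decide +kernel

lemma t23_235 : allLt (fun j => blkT 23 (Nat.add 235 j)) 1 = true := by decide +kernel

lemma t23_236 : allLt (fun j => blkT 23 (Nat.add 236 j)) 15 = true := by decide +kernel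

lemma t23_251 : allLt (fun j => blkT 23 (Nat.add 251 j)) 2 = true := by decide +kernel

lemma t23_253 : allLt (fun j => blkT 23 (Nat.add 253 j)) 3 = true := by decide +kernel

lemma t23_256 : allLt (fun j => blkT 23 (Nat.add 256 j)) 14 = true := by decide +kernel

lemma t23_270 : allLt (fun j => blkT 23 (Nat.add 270 j)) 1 = true := by decide +kernel

lemma t23_271 : allLt (fun j => blkT 23 (Nat.add 271 j)) 12 = true := by decide +kernel

lemma t23_283 : allLt (fun j => blkT 23 (Nat.add 283 j)) 12 = true := by decide +kernel

lemma t23_295 : allLt (fun j => blkT 23 (Nat.add 295 j)) 23 = true := by decide +kernel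

lemma t23_318 : allLt (fun j => blkT 23 (Nat.add 318 j)) 25 = true := by decide +kernel

lemma t23_343 : allLt (fun j => blkT 23 (Nat.add 343 j)) 28 = true := by decide +kernel

lemma t23_371 : allLt (fun j => blkT 23 (Nat.add 371 j)) 28 = true := by decide +kernel

lemma t23_399 : allLt (fun j => blkT 23 (Nat.add 399 j)) 27 = true := by decide +kernel

lemma t23_426 : allLt (fun j => blkT 23 (Nat.add 426 j)) 16 = true := by decide +kernel

lemma t23_442 : allLt (fun j => blkT 23 (Nat.add 442 j)) 17 = true := by decide +kernel

lemma r23_0 : allLt (fun j => blkR 23 (Nat.add 0 j)) 1 = true := by decide +kernel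

lemma r23_1 : allLt (fun j => blkR 23 (Nat.add 1 j)) 1 = true := by decide +kernel

lemma r23_2 : allLt (fun j => blkR 23 (Nat.add 2 j)) 1 = true := by decide +kernel

lemma r23_3 : allLt (fun j => blkR 23 (Nat.add 3 j)) 1 = true := by decide +kernel

lemma r23_4 : allLt (fun j => blkR 23 (Nat.add 4 j)) 1 = true := by decide +kernel

lemma r23_5 : allLt (fun j => blkR 23 (Nat.add 5 j)) 1 = true := by decide +kernel

lemma r23_6 : allLt (fun j => blkR 23 (Nat.add 6 j)) 1 = true := by decide +kernel

lemma r23_7 : allLt (fun j => blkR 23 (Nat.add 7 j)) 1 = true := by decide +kernel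

lemma r23_8 : allLt (fun j => blkR 23 (Nat.add 8 j)) 1 = true := by decide +kernel

lemma r23_9 : allLt (fun j => blkR 23 (Nat.add 9 j)) 1 = true := by decide +kernel

lemma r23_10 : allLt (fun j => blkR 23 (Nat.add 10 j)) 2 = true := by decide +kernel

lemma r23_12 : allLt (fun j => blkR 23 (Nat.add 12 j)) 85 = true := by decide +kernel

lemma rowC23 : rowC 23 = true := by decide +kernel

lemma t24_0 : allLt (fun j => blkT 24 (Nat.add 0 j)) 170 = true := by decide +kernel

lemma t24_170 : allLt (fun j => blkT 24 (Nat.add 170 j)) 18 = true := by decide +kernel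

lemma t24_188 : allLt (fun j => blkT 24 (Nat.add 188 j)) 2 = true := by decide +kernel

lemma t24_190 : allLt (fun j => blkT 24 (Nat.add 190 j)) 14 = true := by decide +kernel

lemma t24_204 : allLt (fun j => blkT 24 (Nat.add 204 j)) 2 = true := by decide +kernel

lemma t24_206 : allLt (fun j => blkT 24 (Nat.add 206 j)) 2 = true := by decide +kernel

lemma t24_208 : allLt (fun j => blkT 24 (Nat.add 208 j)) 2 = true := by decide +kernel

end Pool.Agent.W2helper66.DT.KD
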