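import Pool.Agent.H962.KDat

/-!
# Check of the simplices
-/

set_option autoImplicit false

namespace Pool.Agent.W2helper66.DT.KD

open Pool.Agent.H962 Pool.Agent.H962.KD

lemma t6_82 : allLt (fun j => blkT 6 (Nat.add 82 j)) 28 = true := by decide +kernel

lemma t6_110 : allLt (fun j => blkT 6 (Nat.add 110 j)) 28 = true := by decide +kernel

lemma t6_138 : allLt (fun j => blkT 6 (Nat.add 138 j)) 28 = true := by decide +kernel

lemma t6_166 : allLt (fun j => blkT 6 (Nat.add 166 j)) 28 = true := by decide +kernel

lemma t6_194 : allLt (fun j => blkT 6 (Nat.add 194 j)) 28 = true := by decide +kernel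

lemma t6_222 : allLt (fun j => blkT 6 (Nat.add 222 j)) 28 = true := by decide +kernel

lemma t6_250 : allLt (fun j => blkT 6 (Nat.add 250 j)) 28 = true := by decide +kernel

lemma t6_278 : allLt (fun j => blkT 6 (Nat.add 278 j)) 28 = true := by decide +kernel

lemma t6_306 : allLt (fun j => blkT 6 (Nat.add 306 j)) 28 = true := by decide +kernel

lemma t6_334 : allLt (fun j => blkT 6 (Nat.add 334 j)) 23 = true := by decide +kernel

lemma t6_357 : allLt (fun j => blkT 6 (Nat.add 357 j)) 1 = true := by decide +kernel

lemma t6_358 : allLt (fun j => blkT 6 (Nat.add 358 j)) 1 = true := by decide +kernel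

lemma t6_359 : allLt (fun j => blkT 6 (Nat.add 359 j)) 3 = true := by decide +kernel

lemma t6_362 : allLt (fun j => blkT 6 (Nat.add 362 j)) 24 = true := by decide +kernel

lemma t6_386 : allLt (fun j => blkT 6 (Nat.add 386 j)) 73 = true := by decide +kernel

lemma r6_0 : allLt (fun j => blkR 6 (Nat.add 0 j)) 20 = true := by decide +kernel

lemma r6_20 : allLt (fun j => blkR 6 (Nat.add 20 j)) 22 = true := by decide +kernel

lemma r6_42 : allLt (fun j => blkR 6 (Nat.add 42 j)) 26 = true := by decide +kernel

lemma r6_68 : allLt (fun j => blkR 6 (Nat.add 68 j)) 21 = true := by decide +kernel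

lemma r6_89 : allLt (fun j => blkR 6 (Nat.add 89 j)) 8 = true := by decide +kernel

lemma rowC6 : rowC 6 = true := by decide +kernel

lemma t7_0 : allLt (fun j => blkT 7 (Nat.add 0 j)) 33 = true := by decide +kernel

lemma t7_33 : allLt (fun j => blkT 7 (Nat.add 33 j)) 5 = true := by decide +kernel

lemma t7_38 : allLt (fun j => blkT 7 (Nat.add 38 j)) 20 = true := by decide +kernel

lemma t7_58 : allLt (fun j => blkT 7 (Nat.add 58 j)) 21 = true := by decide +kernel

lemma t7_79 : allLt (fun j => blkT 7 (Nat.add 79 j)) 28 = true := by decide +kernel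

lemma t7_107 : allLt (fun j => blkT 7 (Nat.add 107 j)) 28 = true := by decide +kernel

lemma t7_135 : allLt (fun j => blkT 7 (Nat.add 135 j)) 28 = true := by decide +kernel

lemma t7_163 : allLt (fun j => blkT 7 (Nat.add 163 j)) 28 = true := by decide +kernel

lemma t7_191 : allLt (fun j => blkT 7 (Nat.add 191 j)) 28 = true := by decide +kernel

lemma t7_219 : allLt (fun j => blkT 7 (Nat.add 219 j)) 28 = true := by decide +kernel

lemma t7_247 : allLt (fun j => blkT 7 (Nat.add 247 j)) 28 = true := by decide +kernel

lemma t7_275 : allLt (fun j => blkT 7 (Nat.add 275 j)) 28 = true := by decide +kernel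

lemma t7_303 : allLt (fun j => blkT 7 (Nat.add 303 j)) 28 = true := by decide +kernel

lemma t7_331 : allLt (fun j => blkT 7 (Nat.add 331 j)) 26 = true := by decide +kernel

lemma t7_357 : allLt (fun j => blkT 7 (Nat.add 357 j)) 17 = true := by decide +kernel

lemma t7_374 : allLt (fun j => blkT 7 (Nat.add 374 j)) 2 = true := by decide +kernel

lemma t7_376 : allLt (fun j => blkT 7 (Nat.add 376 j)) 1 = true := by decide +kernel

lemma t7_377 : allLt (fun j => blkT 7 (Nat.add 377 j)) 17 = true := by decide +kernel

lemma t7_394 : allLt (fun j => blkT 7 (Nat.add 394 j)) 62 = true := by decide +kernel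

lemma t7_456 : allLt (fun j => blkT 7 (Nat.add 456 j)) 3 = true := by decide +kernel

lemma r7_0 : allLt (fun j => blkR 7 (Nat.add 0 j)) 19 = true := by decide +kernel

lemma r7_19 : allLt (fun j => blkR 7 (Nat.add 19 j)) 22 = true := by decide +kernel

lemma r7_41 : allLt (fun j => blkR 7 (Nat.add 41 j)) 25 = true := by decide +kernel

lemma r7_66 : allLt (fun j => blkR 7 (Nat.add 66 j)) 21 = true := by decide +kernel

lemma r7_87 : allLt (fun j => blkR 7 (Nat.add 87 j)) 10 = true := by decide +kernel

lemma rowC7 : rowC 7 = true := by decide +kernel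

lemma t8_0 : allLt (fun j => blkT 8 (Nat.add 0 j)) 36 = true := by decide +kernel

lemma t8_36 : allLt (fun j => blkT 8 (Nat.add 36 j)) 2 = true := by decide +kernel

lemma t8_38 : allLt (fun j => blkT 8 (Nat.add 38 j)) 14 = true := by decide +kernel

lemma t8_52 : allLt (fun j => blkT 8 (Nat.add 52 j)) 7 = true := by decide +kernel

lemma t8_59 : allLt (fun j => blkT 8 (Nat.add 59 j)) 18 = true := by decide +kernel

lemma t8_77 : allLt (fun j => blkT 8 (Nat.add 77 j)) 27 = true := by decide +kernel

lemma t8_104 : allLt (fun j => blkT 8 (Nat.add 104 j)) 28 = true := by decide +kernel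

lemma t8_132 : allLt (fun j => blkT 8 (Nat.add 132 j)) 28 = true := by decide +kernel

lemma t8_160 : allLt (fun j => blkT 8 (Nat.add 160 j)) 28 = true := by decide +kernel

lemma t8_188 : allLt (fun j => blkT 8 (Nat.add 188 j)) 28 = true := by decide +kernel

lemma t8_216 : allLt (fun j => blkT 8 (Nat.add 216 j)) 28 = true := by decide +kernel

lemma t8_244 : allLt (fun j => blkT 8 (Nat.add 244 j)) 28 = true := by decide +kernel

end Pool.Agent.W2helper66.DT.KD
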