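import Pool.Agent.H962.KDat

/-!
# Check of the simplices
-/

set_option autoImplicit false

namespace Pool.Agent.W2helper66.DT.KD

open Pool.Agent.H962 Pool.Agent.H962.KD

lemma t10_346 : allLt (fun j => blkT 10 (Nat.add 346 j)) 28 = true := by decide +kernel

lemma t10_374 : allLt (fun j => blkT 10 (Nat.add 374 j)) 25 = true := by decide +kernel

lemma t10_399 : allLt (fun j => blkT 10 (Nat.add 399 j)) 12 = true := by decide +kernel

lemma t10_411 : allLt (fun j => blkT 10 (Nat.add 411 j)) 3 = true := by decide +kernel

lemma t10_414 : allLt (fun j => blkT 10 (Nat.add 414 j)) 31 = true := by decide +kernel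

lemma t10_445 : allLt (fun j => blkT 10 (Nat.add 445 j)) 14 = true := by decide +kernel

lemma r10_0 : allLt (fun j => blkR 10 (Nat.add 0 j)) 18 = true := by decide +kernel

lemma r10_18 : allLt (fun j => blkR 10 (Nat.add 18 j)) 20 = true := by decide +kernel

lemma r10_38 : allLt (fun j => blkR 10 (Nat.add 38 j)) 22 = true := by decide +kernel

lemma r10_60 : allLt (fun j => blkR 10 (Nat.add 60 j)) 19 = true := by decide +kernel

lemma r10_79 : allLt (fun j => blkR 10 (Nat.add 79 j)) 10 = true := by decide +kernel

lemma r10_89 : allLt (fun j => blkR 10 (Nat.add 89 j)) 8 = true := by decide +kernel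

lemma rowC10 : rowC 10 = true := by decide +kernel

lemma t11_0 : allLt (fun j => blkT 11 (Nat.add 0 j)) 34 = true := by decide +kernel

lemma t11_34 : allLt (fun j => blkT 11 (Nat.add 34 j)) 1 = true := by decide +kernel

lemma t11_35 : allLt (fun j => blkT 11 (Nat.add 35 j)) 1 = true := by decide +kernel

lemma t11_36 : allLt (fun j => blkT 11 (Nat.add 36 j)) 1 = true := by decide +kernel

lemma t11_37 : allLt (fun j => blkT 11 (Nat.add 37 j)) 18 = true := by decide +kernel

lemma t11_55 : allLt (fun j => blkT 11 (Nat.add 55 j)) 2 = true := by decide +kernel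

lemma t11_57 : allLt (fun j => blkT 11 (Nat.add 57 j)) 1 = true := by decide +kernel

lemma t11_58 : allLt (fun j => blkT 11 (Nat.add 58 j)) 2 = true := by decide +kernel

lemma t11_60 : allLt (fun j => blkT 11 (Nat.add 60 j)) 2 = true := by decide +kernel

lemma t11_62 : allLt (fun j => blkT 11 (Nat.add 62 j)) 19 = true := by decide +kernel

lemma t11_81 : allLt (fun j => blkT 11 (Nat.add 81 j)) 23 = true := by decide +kernel

lemma t11_104 : allLt (fun j => blkT 11 (Nat.add 104 j)) 28 = true := by decide +kernel

lemma t11_132 : allLt (fun j => blkT 11 (Nat.add 132 j)) 28 = true := by decide +kernel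

lemma t11_160 : allLt (fun j => blkT 11 (Nat.add 160 j)) 28 = true := by decide +kernel

lemma t11_188 : allLt (fun j => blkT 11 (Nat.add 188 j)) 28 = true := by decide +kernel

lemma t11_216 : allLt (fun j => blkT 11 (Nat.add 216 j)) 28 = true := by decide +kernel

lemma t11_244 : allLt (fun j => blkT 11 (Nat.add 244 j)) 28 = true := by decide +kernel

lemma t11_272 : allLt (fun j => blkT 11 (Nat.add 272 j)) 28 = true := by decide +kernel

lemma t11_300 : allLt (fun j => blkT 11 (Nat.add 300 j)) 28 = true := by decide +kernel

lemma t11_328 : allLt (fun j => blkT 11 (Nat.add 328 j)) 28 = true := by decide +kernel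

lemma t11_356 : allLt (fun j => blkT 11 (Nat.add 356 j)) 28 = true := by decide +kernel

lemma t11_384 : allLt (fun j => blkT 11 (Nat.add 384 j)) 24 = true := by decide +kernel

lemma t11_408 : allLt (fun j => blkT 11 (Nat.add 408 j)) 2 = true := by decide +kernel

lemma t11_410 : allLt (fun j => blkT 11 (Nat.add 410 j)) 2 = true := by decide +kernel

lemma t11_412 : allLt (fun j => blkT 11 (Nat.add 412 j)) 2 = true := by decide +kernel

lemma t11_414 : allLt (fun j => blkT 11 (Nat.add 414 j)) 6 = true := by decide +kernel

lemma t11_420 : allLt (fun j => blkT 11 (Nat.add 420 j)) 39 = true := by decide +kernel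

lemma r11_0 : allLt (fun j => blkR 11 (Nat.add 0 j)) 17 = true := by decide +kernel

lemma r11_17 : allLt (fun j => blkR 11 (Nat.add 17 j)) 20 = true := by decide +kernel

lemma r11_37 : allLt (fun j => blkR 11 (Nat.add 37 j)) 21 = true := by decide +kernel

lemma r11_58 : allLt (fun j => blkR 11 (Nat.add 58 j)) 17 = true := by decide +kernel

lemma r11_75 : allLt (fun j => blkR 11 (Nat.add 75 j)) 11 = true := by decide +kernel

lemma r11_86 : allLt (fun j => blkR 11 (Nat.add 86 j)) 11 = true := by decide +kernel

lemma rowC11 : rowC 11 = true := by decide +kernel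

lemma t12_0 : allLt (fun j => blkT 12 (Nat.add 0 j)) 34 = true := by decide +kernel

lemma t12_34 : allLt (fun j => blkT 12 (Nat.add 34 j)) 1 = true := by decide +kernel

lemma t12_35 : allLt (fun j => blkT 12 (Nat.add 35 j)) 1 = true := by decide +kernel

lemma t12_36 : allLt (fun j => blkT 12 (Nat.add 36 j)) 16 = true := by decide +kernel

lemma t12_52 : allLt (fun j => blkT 12 (Nat.add 52 j)) 3 = true := by decide +kernel

lemma t12_55 : allLt (fun j => blkT 12 (Nat.add 55 j)) 1 = true := by decide +kernel

lemma t12_56 : allLt (fun j => blkT 12 (Nat.add 56 j)) 1 = true := by decide +kernel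

lemma t12_57 : allLt (fun j => blkT 12 (Nat.add 57 j)) 1 = true := by decide +kernel

lemma t12_58 : allLt (fun j => blkT 12 (Nat.add 58 j)) 1 = true := by decide +kernel

lemma t12_59 : allLt (fun j => blkT 12 (Nat.add 59 j)) 2 = true := by decide +kernel

lemma t12_61 : allLt (fun j => blkT 12 (Nat.add 61 j)) 18 = true := by decide +kernel

lemma t12_79 : allLt (fun j => blkT 12 (Nat.add 79 j)) 20 = true := by decide +kernel

lemma t12_99 : allLt (fun j => blkT 12 (Nat.add 99 j)) 24 = true := by decide +kernel

lemma t12_123 : allLt (fun j => blkT 12 (Nat.add 123 j)) 28 = true := by decide +kernel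

lemma t12_151 : allLt (fun j => blkT 12 (Nat.add 151 j)) 28 = true := by decide +kernel

lemma t12_179 : allLt (fun j => blkT 12 (Nat.add 179 j)) 28 = true := by decide +kernel

end Pool.Agent.W2helper66.DT.KD
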