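import Pool.Agent.H962.KDat

/-!
# Check of the simplices
-/

set_option autoImplicit false

namespace Pool.Agent.W2helper66.DT.KD

open Pool.Agent.H962 Pool.Agent.H962.KD

lemma t14_54 : allLt (fun j => blkT 14 (Nat.add 54 j)) 1 = true := by decide +kernel

lemma t14_55 : allLt (fun j => blkT 14 (Nat.add 55 j)) 1 = true := by decide +kernel

lemma t14_56 : allLt (fun j => blkT 14 (Nat.add 56 j)) 1 = true := by decide +kernel

lemma t14_57 : allLt (fun j => blkT 14 (Nat.add 57 j)) 1 = true := by decide +kernel

lemma t14_58 : allLt (fun j => blkT 14 (Nat.add 58 j)) 1 = true := by decide +kernel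

lemma t14_59 : allLt (fun j => blkT 14 (Nat.add 59 j)) 2 = true := by decide +kernel

lemma t14_61 : allLt (fun j => blkT 14 (Nat.add 61 j)) 17 = true := by decide +kernel

lemma t14_78 : allLt (fun j => blkT 14 (Nat.add 78 j)) 2 = true := by decide +kernel

lemma t14_80 : allLt (fun j => blkT 14 (Nat.add 80 j)) 17 = true := by decide +kernel

lemma t14_97 : allLt (fun j => blkT 14 (Nat.add 97 j)) 19 = true := by decide +kernel

lemma t14_116 : allLt (fun j => blkT 14 (Nat.add 116 j)) 28 = true := by decide +kernel

lemma t14_144 : allLt (fun j => blkT 14 (Nat.add 144 j)) 28 = true := by decide +kernel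

lemma t14_172 : allLt (fun j => blkT 14 (Nat.add 172 j)) 28 = true := by decide +kernel

lemma t14_200 : allLt (fun j => blkT 14 (Nat.add 200 j)) 28 = true := by decide +kernel

lemma t14_228 : allLt (fun j => blkT 14 (Nat.add 228 j)) 28 = true := by decide +kernel

lemma t14_256 : allLt (fun j => blkT 14 (Nat.add 256 j)) 28 = true := by decide +kernel

lemma t14_284 : allLt (fun j => blkT 14 (Nat.add 284 j)) 28 = true := by decide +kernel

lemma t14_312 : allLt (fun j => blkT 14 (Nat.add 312 j)) 28 = true := by decide +kernel

lemma t14_340 : allLt (fun j => blkT 14 (Nat.add 340 j)) 28 = true := by decide +kernel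

lemma t14_368 : allLt (fun j => blkT 14 (Nat.add 368 j)) 28 = true := by decide +kernel

lemma t14_396 : allLt (fun j => blkT 14 (Nat.add 396 j)) 13 = true := by decide +kernel

lemma t14_409 : allLt (fun j => blkT 14 (Nat.add 409 j)) 1 = true := by decide +kernel

lemma t14_410 : allLt (fun j => blkT 14 (Nat.add 410 j)) 1 = true := by decide +kernel

lemma t14_411 : allLt (fun j => blkT 14 (Nat.add 411 j)) 1 = true := by decide +kernel

lemma t14_412 : allLt (fun j => blkT 14 (Nat.add 412 j)) 2 = true := by decide +kernel

lemma t14_414 : allLt (fun j => blkT 14 (Nat.add 414 j)) 2 = true := by decide +kernel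

lemma t14_416 : allLt (fun j => blkT 14 (Nat.add 416 j)) 18 = true := by decide +kernel

lemma t14_434 : allLt (fun j => blkT 14 (Nat.add 434 j)) 3 = true := by decide +kernel

lemma t14_437 : allLt (fun j => blkT 14 (Nat.add 437 j)) 22 = true := by decide +kernel

lemma r14_0 : allLt (fun j => blkR 14 (Nat.add 0 j)) 15 = true := by decide +kernel

lemma r14_15 : allLt (fun j => blkR 14 (Nat.add 15 j)) 17 = true := by decide +kernel

lemma r14_32 : allLt (fun j => blkR 14 (Nat.add 32 j)) 18 = true := by decide +kernel

lemma r14_50 : allLt (fun j => blkR 14 (Nat.add 50 j)) 14 = true := by decide +kernel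

lemma r14_64 : allLt (fun j => blkR 14 (Nat.add 64 j)) 12 = true := by decide +kernel

lemma r14_76 : allLt (fun j => blkR 14 (Nat.add 76 j)) 3 = true := by decide +kernel

lemma r14_79 : allLt (fun j => blkR 14 (Nat.add 79 j)) 2 = true := by decide +kernel

lemma r14_81 : allLt (fun j => blkR 14 (Nat.add 81 j)) 16 = true := by decide +kernel

lemma rowC14 : rowC 14 = true := by decide +kernel

lemma t15_0 : allLt (fun j => blkT 15 (Nat.add 0 j)) 52 = true := by decide +kernel

lemma t15_52 : allLt (fun j => blkT 15 (Nat.add 52 j)) 1 = true := by decide +kernel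

lemma t15_53 : allLt (fun j => blkT 15 (Nat.add 53 j)) 1 = true := by decide +kernel

lemma t15_54 : allLt (fun j => blkT 15 (Nat.add 54 j)) 1 = true := by decide +kernel

lemma t15_55 : allLt (fun j => blkT 15 (Nat.add 55 j)) 1 = true := by decide +kernel

lemma t15_56 : allLt (fun j => blkT 15 (Nat.add 56 j)) 1 = true := by decide +kernel

lemma t15_57 : allLt (fun j => blkT 15 (Nat.add 57 j)) 1 = true := by decide +kernel

lemma t15_58 : allLt (fun j => blkT 15 (Nat.add 58 j)) 16 = true := by decide +kernel

lemma t15_74 : allLt (fun j => blkT 15 (Nat.add 74 j)) 2 = true := by decide +kernel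

lemma t15_76 : allLt (fun j => blkT 15 (Nat.add 76 j)) 1 = true := by decide +kernel

lemma t15_77 : allLt (fun j => blkT 15 (Nat.add 77 j)) 1 = true := by decide +kernel

lemma t15_78 : allLt (fun j => blkT 15 (Nat.add 78 j)) 1 = true := by decide +kernel

lemma t15_79 : allLt (fun j => blkT 15 (Nat.add 79 j)) 11 = true := by decide +kernel

lemma t15_90 : allLt (fun j => blkT 15 (Nat.add 90 j)) 13 = true := by decide +kernel

lemma t15_103 : allLt (fun j => blkT 15 (Nat.add 103 j)) 27 = true := by decide +kernel

lemma t15_130 : allLt (fun j => blkT 15 (Nat.add 130 j)) 28 = true := by decide +kernel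

lemma t15_158 : allLt (fun j => blkT 15 (Nat.add 158 j)) 28 = true := by decide +kernel

lemma t15_186 : allLt (fun j => blkT 15 (Nat.add 186 j)) 28 = true := by decide +kernel

lemma t15_214 : allLt (fun j => blkT 15 (Nat.add 214 j)) 28 = true := by decide +kernel

lemma t15_242 : allLt (fun j => blkT 15 (Nat.add 242 j)) 28 = true := by decide +kernel

lemma t15_270 : allLt (fun j => blkT 15 (Nat.add 270 j)) 28 = true := by decide +kernel

lemma t15_298 : allLt (fun j => blkT 15 (Nat.add 298 j)) 28 = true := by decide +kernel

end Pool.Agent.W2helper66.DT.KD
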