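import Pool.Agent.H962.KDat

/-!
# Check of the simplices
-/

set_option autoImplicit false

namespace Pool.Agent.W2helper66.DT.KD

open Pool.Agent.H962 Pool.Agent.H962.KD

lemma t15_326 : allLt (fun j => blkT 15 (Nat.add 326 j)) 28 = true := by decide +kernel

lemma t15_354 : allLt (fun j => blkT 15 (Nat.add 354 j)) 28 = true := by decide +kernel

lemma t15_382 : allLt (fun j => blkT 15 (Nat.add 382 j)) 26 = true := by decide +kernel

lemma t15_408 : allLt (fun j => blkT 15 (Nat.add 408 j)) 2 = true := by decide +kernel

lemma t15_410 : allLt (fun j => blkT 15 (Nat.add 410 j)) 1 = true := by decide +kernel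

lemma t15_411 : allLt (fun j => blkT 15 (Nat.add 411 j)) 2 = true := by decide +kernel

lemma t15_413 : allLt (fun j => blkT 15 (Nat.add 413 j)) 7 = true := by decide +kernel

lemma t15_420 : allLt (fun j => blkT 15 (Nat.add 420 j)) 14 = true := by decide +kernel

lemma t15_434 : allLt (fun j => blkT 15 (Nat.add 434 j)) 2 = true := by decide +kernel

lemma t15_436 : allLt (fun j => blkT 15 (Nat.add 436 j)) 4 = true := by decide +kernel

lemma t15_440 : allLt (fun j => blkT 15 (Nat.add 440 j)) 19 = true := by decide +kernel

lemma r15_0 : allLt (fun j => blkR 15 (Nat.add 0 j)) 15 = true := by decide +kernel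

lemma r15_15 : allLt (fun j => blkR 15 (Nat.add 15 j)) 16 = true := by decide +kernel

lemma r15_31 : allLt (fun j => blkR 15 (Nat.add 31 j)) 16 = true := by decide +kernel

lemma r15_47 : allLt (fun j => blkR 15 (Nat.add 47 j)) 13 = true := by decide +kernel

lemma r15_60 : allLt (fun j => blkR 15 (Nat.add 60 j)) 12 = true := by decide +kernel

lemma r15_72 : allLt (fun j => blkR 15 (Nat.add 72 j)) 3 = true := by decide +kernel

lemma r15_75 : allLt (fun j => blkR 15 (Nat.add 75 j)) 1 = true := by decide +kernel

lemma r15_76 : allLt (fun j => blkR 15 (Nat.add 76 j)) 1 = true := by decide +kernel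

lemma r15_77 : allLt (fun j => blkR 15 (Nat.add 77 j)) 20 = true := by decide +kernel

lemma rowC15 : rowC 15 = true := by decide +kernel

lemma t16_0 : allLt (fun j => blkT 16 (Nat.add 0 j)) 52 = true := by decide +kernel

lemma t16_52 : allLt (fun j => blkT 16 (Nat.add 52 j)) 2 = true := by decide +kernel

lemma t16_54 : allLt (fun j => blkT 16 (Nat.add 54 j)) 1 = true := by decide +kernel

lemma t16_55 : allLt (fun j => blkT 16 (Nat.add 55 j)) 1 = true := by decide +kernel

lemma t16_56 : allLt (fun j => blkT 16 (Nat.add 56 j)) 16 = true := by decide +kernel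

lemma t16_72 : allLt (fun j => blkT 16 (Nat.add 72 j)) 2 = true := by decide +kernel

lemma t16_74 : allLt (fun j => blkT 16 (Nat.add 74 j)) 1 = true := by decide +kernel

lemma t16_75 : allLt (fun j => blkT 16 (Nat.add 75 j)) 1 = true := by decide +kernel

lemma t16_76 : allLt (fun j => blkT 16 (Nat.add 76 j)) 1 = true := by decide +kernel

lemma t16_77 : allLt (fun j => blkT 16 (Nat.add 77 j)) 1 = true := by decide +kernel

lemma t16_78 : allLt (fun j => blkT 16 (Nat.add 78 j)) 2 = true := by decide +kernel

lemma t16_80 : allLt (fun j => blkT 16 (Nat.add 80 j)) 17 = true := by decide +kernel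

lemma t16_97 : allLt (fun j => blkT 16 (Nat.add 97 j)) 2 = true := by decide +kernel

lemma t16_99 : allLt (fun j => blkT 16 (Nat.add 99 j)) 18 = true := by decide +kernel

lemma t16_117 : allLt (fun j => blkT 16 (Nat.add 117 j)) 21 = true := by decide +kernel

lemma t16_138 : allLt (fun j => blkT 16 (Nat.add 138 j)) 28 = true := by decide +kernel

lemma t16_166 : allLt (fun j => blkT 16 (Nat.add 166 j)) 28 = true := by decide +kernel

lemma t16_194 : allLt (fun j => blkT 16 (Nat.add 194 j)) 28 = true := by decide +kernel

lemma t16_222 : allLt (fun j => blkT 16 (Nat.add 222 j)) 28 = true := by decide +kernel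

lemma t16_250 : allLt (fun j => blkT 16 (Nat.add 250 j)) 28 = true := by decide +kernel

lemma t16_278 : allLt (fun j => blkT 16 (Nat.add 278 j)) 28 = true := by decide +kernel

lemma t16_306 : allLt (fun j => blkT 16 (Nat.add 306 j)) 28 = true := by decide +kernel

lemma t16_334 : allLt (fun j => blkT 16 (Nat.add 334 j)) 28 = true := by decide +kernel

lemma t16_362 : allLt (fun j => blkT 16 (Nat.add 362 j)) 28 = true := by decide +kernel

lemma t16_390 : allLt (fun j => blkT 16 (Nat.add 390 j)) 19 = true := by decide +kernel

lemma t16_409 : allLt (fun j => blkT 16 (Nat.add 409 j)) 2 = true := by decide +kernel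

lemma t16_411 : allLt (fun j => blkT 16 (Nat.add 411 j)) 4 = true := by decide +kernel

lemma t16_415 : allLt (fun j => blkT 16 (Nat.add 415 j)) 16 = true := by decide +kernel

lemma t16_431 : allLt (fun j => blkT 16 (Nat.add 431 j)) 2 = true := by decide +kernel

lemma t16_433 : allLt (fun j => blkT 16 (Nat.add 433 j)) 2 = true := by decide +kernel

lemma t16_435 : allLt (fun j => blkT 16 (Nat.add 435 j)) 2 = true := by decide +kernel

lemma t16_437 : allLt (fun j => blkT 16 (Nat.add 437 j)) 4 = true := by decide +kernel

lemma t16_441 : allLt (fun j => blkT 16 (Nat.add 441 j)) 18 = true := by decide +kernel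

lemma r16_0 : allLt (fun j => blkR 16 (Nat.add 0 j)) 14 = true := by decide +kernel

lemma r16_14 : allLt (fun j => blkR 16 (Nat.add 14 j)) 16 = true := by decide +kernel

lemma r16_30 : allLt (fun j => blkR 16 (Nat.add 30 j)) 14 = true := by decide +kernel

lemma r16_44 : allLt (fun j => blkR 16 (Nat.add 44 j)) 13 = true := by decide +kernel

lemma r16_57 : allLt (fun j => blkR 16 (Nat.add 57 j)) 13 = true := by decide +kernel

lemma r16_70 : allLt (fun j => blkR 16 (Nat.add 70 j)) 2 = true := by decide +kernel

lemma r16_72 : allLt (fun j => blkR 16 (Nat.add 72 j)) 1 = true := by decide +kernel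

end Pool.Agent.W2helper66.DT.KD
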