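import Pool.Agent.H962.KDat

/-!
# Check of the simplices
-/

set_option autoImplicit false

namespace Pool.Agent.W2helper66.DT.KD

open Pool.Agent.H962 Pool.Agent.H962.KD

lemma t18_96 : allLt (fun j => blkT 18 (Nat.add 96 j)) 17 = true := by decide +kernel

lemma t18_113 : allLt (fun j => blkT 18 (Nat.add 113 j)) 2 = true := by decide +kernel

lemma t18_115 : allLt (fun j => blkT 18 (Nat.add 115 j)) 15 = true := by decide +kernel

lemma t18_130 : allLt (fun j => blkT 18 (Nat.add 130 j)) 5 = true := by decide +kernel

lemma t18_135 : allLt (fun j => blkT 18 (Nat.add 135 j)) 24 = true := by decide +kernel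

lemma t18_159 : allLt (fun j => blkT 18 (Nat.add 159 j)) 28 = true := by decide +kernel

lemma t18_187 : allLt (fun j => blkT 18 (Nat.add 187 j)) 28 = true := by decide +kernel

lemma t18_215 : allLt (fun j => blkT 18 (Nat.add 215 j)) 28 = true := by decide +kernel

lemma t18_243 : allLt (fun j => blkT 18 (Nat.add 243 j)) 28 = true := by decide +kernel

lemma t18_271 : allLt (fun j => blkT 18 (Nat.add 271 j)) 28 = true := by decide +kernel

lemma t18_299 : allLt (fun j => blkT 18 (Nat.add 299 j)) 28 = true := by decide +kernel

lemma t18_327 : allLt (fun j => blkT 18 (Nat.add 327 j)) 28 = true := by decide +kernel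

lemma t18_355 : allLt (fun j => blkT 18 (Nat.add 355 j)) 28 = true := by decide +kernel

lemma t18_383 : allLt (fun j => blkT 18 (Nat.add 383 j)) 25 = true := by decide +kernel

lemma t18_408 : allLt (fun j => blkT 18 (Nat.add 408 j)) 9 = true := by decide +kernel

lemma t18_417 : allLt (fun j => blkT 18 (Nat.add 417 j)) 11 = true := by decide +kernel

lemma t18_428 : allLt (fun j => blkT 18 (Nat.add 428 j)) 2 = true := by decide +kernel

lemma t18_430 : allLt (fun j => blkT 18 (Nat.add 430 j)) 2 = true := by decide +kernel

lemma t18_432 : allLt (fun j => blkT 18 (Nat.add 432 j)) 1 = true := by decide +kernel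

lemma t18_433 : allLt (fun j => blkT 18 (Nat.add 433 j)) 1 = true := by decide +kernel

lemma t18_434 : allLt (fun j => blkT 18 (Nat.add 434 j)) 1 = true := by decide +kernel

lemma t18_435 : allLt (fun j => blkT 18 (Nat.add 435 j)) 2 = true := by decide +kernel

lemma t18_437 : allLt (fun j => blkT 18 (Nat.add 437 j)) 3 = true := by decide +kernel

lemma t18_440 : allLt (fun j => blkT 18 (Nat.add 440 j)) 19 = true := by decide +kernel

lemma r18_0 : allLt (fun j => blkR 18 (Nat.add 0 j)) 8 = true := by decide +kernel

lemma r18_8 : allLt (fun j => blkR 18 (Nat.add 8 j)) 10 = true := by decide +kernel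

lemma r18_18 : allLt (fun j => blkR 18 (Nat.add 18 j)) 10 = true := by decide +kernel

lemma r18_28 : allLt (fun j => blkR 18 (Nat.add 28 j)) 9 = true := by decide +kernel

lemma r18_37 : allLt (fun j => blkR 18 (Nat.add 37 j)) 9 = true := by decide +kernel

lemma r18_46 : allLt (fun j => blkR 18 (Nat.add 46 j)) 10 = true := by decide +kernel

lemma r18_56 : allLt (fun j => blkR 18 (Nat.add 56 j)) 5 = true := by decide +kernel

lemma r18_61 : allLt (fun j => blkR 18 (Nat.add 61 j)) 1 = true := by decide +kernel

lemma r18_62 : allLt (fun j => blkR 18 (Nat.add 62 j)) 1 = true := by decide +kernel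

lemma r18_63 : allLt (fun j => blkR 18 (Nat.add 63 j)) 1 = true := by decide +kernel

lemma r18_64 : allLt (fun j => blkR 18 (Nat.add 64 j)) 1 = true := by decide +kernel

lemma r18_65 : allLt (fun j => blkR 18 (Nat.add 65 j)) 1 = true := by decide +kernel

lemma r18_66 : allLt (fun j => blkR 18 (Nat.add 66 j)) 1 = true := by decide +kernel

lemma r18_67 : allLt (fun j => blkR 18 (Nat.add 67 j)) 30 = true := by decide +kernel

lemma rowC18 : rowC 18 = true := by decide +kernel

lemma t19_0 : allLt (fun j => blkT 19 (Nat.add 0 j)) 86 = true := by decide +kernel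

lemma t19_86 : allLt (fun j => blkT 19 (Nat.add 86 j)) 3 = true := by decide +kernel

lemma t19_89 : allLt (fun j => blkT 19 (Nat.add 89 j)) 1 = true := by decide +kernel

lemma t19_90 : allLt (fun j => blkT 19 (Nat.add 90 j)) 1 = true := by decide +kernel

lemma t19_91 : allLt (fun j => blkT 19 (Nat.add 91 j)) 1 = true := by decide +kernel

lemma t19_92 : allLt (fun j => blkT 19 (Nat.add 92 j)) 2 = true := by decide +kernel

lemma t19_94 : allLt (fun j => blkT 19 (Nat.add 94 j)) 15 = true := by decide +kernel

lemma t19_109 : allLt (fun j => blkT 19 (Nat.add 109 j)) 1 = true := by decide +kernel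

lemma t19_110 : allLt (fun j => blkT 19 (Nat.add 110 j)) 1 = true := by decide +kernel

lemma t19_111 : allLt (fun j => blkT 19 (Nat.add 111 j)) 1 = true := by decide +kernel

lemma t19_112 : allLt (fun j => blkT 19 (Nat.add 112 j)) 1 = true := by decide +kernel

lemma t19_113 : allLt (fun j => blkT 19 (Nat.add 113 j)) 1 = true := by decide +kernel

lemma t19_114 : allLt (fun j => blkT 19 (Nat.add 114 j)) 17 = true := by decide +kernel

lemma t19_131 : allLt (fun j => blkT 19 (Nat.add 131 j)) 1 = true := by decide +kernel

lemma t19_132 : allLt (fun j => blkT 19 (Nat.add 132 j)) 1 = true := by decide +kernel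

lemma t19_133 : allLt (fun j => blkT 19 (Nat.add 133 j)) 17 = true := by decide +kernel

lemma t19_150 : allLt (fun j => blkT 19 (Nat.add 150 j)) 1 = true := by decide +kernel

lemma t19_151 : allLt (fun j => blkT 19 (Nat.add 151 j)) 6 = true := by decide +kernel

lemma t19_157 : allLt (fun j => blkT 19 (Nat.add 157 j)) 22 = true := by decide +kernel

lemma t19_179 : allLt (fun j => blkT 19 (Nat.add 179 j)) 28 = true := by decide +kernel

lemma t19_207 : allLt (fun j => blkT 19 (Nat.add 207 j)) 28 = true := by decide +kernel

end Pool.Agent.W2helper66.DT.KD
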