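import Pool.Agent.W2helper66.DT.K.C0
import Pool.Agent.W2helper66.DT.K.C1
import Pool.Agent.W2helper66.DT.K.C2
import Pool.Agent.W2helper66.DT.K.C3
import Pool.Agent.W2helper66.DT.K.C4
import Pool.Agent.W2helper66.DT.K.C5
import Pool.Agent.W2helper66.DT.K.C6
import Pool.Agent.W2helper66.DT.K.C7
import Pool.Agent.W2helper66.DT.K.C8
import Pool.Agent.W2helper66.DT.K.C9
import Pool.Agent.W2helper66.DT.K.C10
import Pool.Agent.W2helper66.DT.K.C11
import Pool.Agent.W2helper66.DT.K.C12
import Pool.Agent.W2helper66.DT.K.C13
import Pool.Agent.W2helper66.DT.K.C14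
import Pool.Agent.W2helper66.DT.K.C15
import Pool.Agent.H962.KMain5

/-!
# The checked data
-/

set_option autoImplicit false

open Real Set

namespace Pool.Agent.W2helper66.DT.KD

open Pool.Agent.H962 Pool.Agent.H962.KD

lemma rowT0 : ∀ j, j < 459 → blkT 0 j = true := by
  intro j hj
  rcases lt_or_ge j 74 with h | h
  · exact glue t0_0 rfl j (by omega) h
  rcases lt_or_ge j 119 with h | h
  · exact glue t0_74 rfl j (by omega) h
  rcases lt_or_ge j 165 with h | h
  · exact glue t0_119 rfl j (by omega) h
  rcases lt_or_ge j 213 with h | h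
  · exact glue t0_165 rfl j (by omega) h
  rcases lt_or_ge j 269 with h | h
  · exact glue t0_213 rfl j (by omega) h
  rcases lt_or_ge j 357 with h | h
  · exact glue t0_269 rfl j (by omega) h
  exact glue t0_357 rfl j (by omega) hj

lemma rowT1 : ∀ j, j < 459 → blkT 1 j = true := by
  intro j hj
  rcases lt_or_ge j 60 with h | h
  · exact glue t1_0 rfl j (by omega) h
  rcases lt_or_ge j 89 with h | h
  · exact glue t1_60 rfl j (by omega) h
  rcases lt_or_ge j 117 with h | h
  · exact glue t1_89 rfl j (by omega) h
  rcases lt_or_ge j 145 with h | h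
  · exact glue t1_117 rfl j (by omega) h
  rcases lt_or_ge j 172 with h | h
  · exact glue t1_145 rfl j (by omega) h
  rcases lt_or_ge j 190 with h | h
  · exact glue t1_172 rfl j (by omega) h
  rcases lt_or_ge j 215 with h | h
  · exact glue t1_190 rfl j (by omega) h
  rcases lt_or_ge j 246 with h | h
  · exact glue t1_215 rfl j (by omega) h
  rcases lt_or_ge j 283 with h | h
  · exact glue t1_246 rfl j (by omega) h
  rcases lt_or_ge j 336 with h | h
  · exact glue t1_283 rfl j (by omega) h
  rcases lt_or_ge j 450 with h | h
  · exact glue t1_336 rfl j (by omega) h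
  exact glue t1_450 rfl j (by omega) hj

lemma rowT2 : ∀ j, j < 459 → blkT 2 j = true := by
  intro j hj
  rcases lt_or_ge j 59 with h | h
  · exact glue t2_0 rfl j (by omega) h
  rcases lt_or_ge j 85 with h | h
  · exact glue t2_59 rfl j (by omega) h
  rcases lt_or_ge j 113 with h | h
  · exact glue t2_85 rfl j (by omega) h
  rcases lt_or_ge j 141 with h | h
  · exact glue t2_113 rfl j (by omega) h
  rcases lt_or_ge j 169 with h | h
  · exact glue t2_141 rfl j (by omega) h
  rcases lt_or_ge j 196 with h | h
  · exact glue t2_169 rfl j (by omega) h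
  rcases lt_or_ge j 206 with h | h
  · exact glue t2_196 rfl j (by omega) h
  rcases lt_or_ge j 221 with h | h
  · exact glue t2_206 rfl j (by omega) h
  rcases lt_or_ge j 222 with h | h
  · exact glue t2_221 rfl j (by omega) h
  rcases lt_or_ge j 230 with h | h
  · exact glue t2_222 rfl j (by omega) h
  rcases lt_or_ge j 242 with h | h
  · exact glue t2_230 rfl j (by omega) h
  rcases lt_or_ge j 262 with h | h
  · exact glue t2_242 rfl j (by omega) h
  rcases lt_or_ge j 296 with h | h
  · exact glue t2_262 rfl j (by omega) h
  rcases lt_or_ge j 345 with h | h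
  · exact glue t2_296 rfl j (by omega) h
  exact glue t2_345 rfl j (by omega) hj

lemma rowT3 : ∀ j, j < 459 → blkT 3 j = true := by
  intro j hj
  rcases lt_or_ge j 59 with h | h
  · exact glue t3_0 rfl j (by omega) h
  rcases lt_or_ge j 82 with h | h
  · exact glue t3_59 rfl j (by omega) h
  rcases lt_or_ge j 107 with h | h
  · exact glue t3_82 rfl j (by omega) h
  rcases lt_or_ge j 135 with h | h
  · exact glue t3_107 rfl j (by omega) h
  rcases lt_or_ge j 163 with h | h
  · exact glue t3_135 rfl j (by omega) h
  rcases lt_or_ge j 191 with h | h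
  · exact glue t3_163 rfl j (by omega) h
  rcases lt_or_ge j 219 with h | h
  · exact glue t3_191 rfl j (by omega) h
  rcases lt_or_ge j 238 with h | h
  · exact glue t3_219 rfl j (by omega) h
  rcases lt_or_ge j 242 with h | h
  · exact glue t3_238 rfl j (by omega) h
  rcases lt_or_ge j 256 with h | h
  · exact glue t3_242 rfl j (by omega) h
  rcases lt_or_ge j 263 with h | h
  · exact glue t3_256 rfl j (by omega) h
  rcases lt_or_ge j 274 with h | h
  · exact glue t3_263 rfl j (by omega) h
  rcases lt_or_ge j 282 with h | h
  · exact glue t3_274 rfl j (by omega) h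
  rcases lt_or_ge j 295 with h | h
  · exact glue t3_282 rfl j (by omega) h
  rcases lt_or_ge j 309 with h | h
  · exact glue t3_295 rfl j (by omega) h
  rcases lt_or_ge j 320 with h | h
  · exact glue t3_309 rfl j (by omega) h
  rcases lt_or_ge j 349 with h | h
  · exact glue t3_320 rfl j (by omega) h
  rcases lt_or_ge j 390 with h | h
  · exact glue t3_349 rfl j (by omega) h
  exact glue t3_390 rfl j (by omega) hj

lemma rowT4 : ∀ j, j < 459 → blkT 4 j = true := by
  intro j hj
  rcases lt_or_ge j 52 with h | h
  · exact glue t4_0 rfl j (by omega) h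
  rcases lt_or_ge j 81 with h | h
  · exact glue t4_52 rfl j (by omega) h
  rcases lt_or_ge j 109 with h | h
  · exact glue t4_81 rfl j (by omega) h
  rcases lt_or_ge j 137 with h | h
  · exact glue t4_109 rfl j (by omega) h
  rcases lt_or_ge j 165 with h | h
  · exact glue t4_137 rfl j (by omega) h
  rcases lt_or_ge j 193 with h | h
  · exact glue t4_165 rfl j (by omega) h
  rcases lt_or_ge j 221 with h | h
  · exact glue t4_193 rfl j (by omega) h
  rcases lt_or_ge j 249 with h | h
  · exact glue t4_221 rfl j (by omega) h
  rcases lt_or_ge j 277 with h | h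
  · exact glue t4_249 rfl j (by omega) h
  rcases lt_or_ge j 303 with h | h
  · exact glue t4_277 rfl j (by omega) h
  rcases lt_or_ge j 314 with h | h
  · exact glue t4_303 rfl j (by omega) h
  rcases lt_or_ge j 329 with h | h
  · exact glue t4_314 rfl j (by omega) h
  rcases lt_or_ge j 354 with h | h
  · exact glue t4_329 rfl j (by omega) h
  rcases lt_or_ge j 406 with h | h
  · exact glue t4_354 rfl j (by omega) h
  exact glue t4_406 rfl j (by omega) hj

lemma rowT5 : ∀ j, j < 459 → blkT 5 j = true := by
  intro j hj
  rcases lt_or_ge j 19 with h | h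
  · exact glue t5_0 rfl j (by omega) h
  rcases lt_or_ge j 40 with h | h
  · exact glue t5_19 rfl j (by omega) h
  rcases lt_or_ge j 76 with h | h
  · exact glue t5_40 rfl j (by omega) h
  rcases lt_or_ge j 104 with h | h
  · exact glue t5_76 rfl j (by omega) h
  rcases lt_or_ge j 132 with h | h
  · exact glue t5_104 rfl j (by omega) h
  rcases lt_or_ge j 160 with h | h
  · exact glue t5_132 rfl j (by omega) h
  rcases lt_or_ge j 188 with h | h
  · exact glue t5_160 rfl j (by omega) h
  rcases lt_or_ge j 216 with h | h
  · exact glue t5_188 rfl j (by omega) h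
  rcases lt_or_ge j 244 with h | h
  · exact glue t5_216 rfl j (by omega) h
  rcases lt_or_ge j 272 with h | h
  · exact glue t5_244 rfl j (by omega) h
  rcases lt_or_ge j 300 with h | h
  · exact glue t5_272 rfl j (by omega) h
  rcases lt_or_ge j 324 with h | h
  · exact glue t5_300 rfl j (by omega) h
  rcases lt_or_ge j 340 with h | h
  · exact glue t5_324 rfl j (by omega) h
  rcases lt_or_ge j 342 with h | h
  · exact glue t5_340 rfl j (by omega) h
  rcases lt_or_ge j 359 with h | h
  · exact glue t5_342 rfl j (by omega) h
  rcases lt_or_ge j 389 with h | h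
  · exact glue t5_359 rfl j (by omega) h
  exact glue t5_389 rfl j (by omega) hj

lemma rowT6 : ∀ j, j < 459 → blkT 6 j = true := by
  intro j hj
  rcases lt_or_ge j 19 with h | h
  · exact glue t6_0 rfl j (by omega) h
  rcases lt_or_ge j 20 with h | h
  · exact glue t6_19 rfl j (by omega) h
  rcases lt_or_ge j 54 with h | h
  · exact glue t6_20 rfl j (by omega) h
  rcases lt_or_ge j 82 with h | h
  · exact glue t6_54 rfl j (by omega) h
  rcases lt_or_ge j 110 with h | h
  · exact glue t6_82 rfl j (by omega) h
  rcases lt_or_ge j 138 with h | h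
  · exact glue t6_110 rfl j (by omega) h
  rcases lt_or_ge j 166 with h | h
  · exact glue t6_138 rfl j (by omega) h
  rcases lt_or_ge j 194 with h | h
  · exact glue t6_166 rfl j (by omega) h
  rcases lt_or_ge j 222 with h | h
  · exact glue t6_194 rfl j (by omega) h
  rcases lt_or_ge j 250 with h | h
  · exact glue t6_222 rfl j (by omega) h
  rcases lt_or_ge j 278 with h | h
  · exact glue t6_250 rfl j (by omega) h
  rcases lt_or_ge j 306 with h | h
  · exact glue t6_278 rfl j (by omega) h
  rcases lt_or_ge j 334 with h | h
  · exact glue t6_306 rfl j (by omega) h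
  rcases lt_or_ge j 357 with h | h
  · exact glue t6_334 rfl j (by omega) h
  rcases lt_or_ge j 358 with h | h
  · exact glue t6_357 rfl j (by omega) h
  rcases lt_or_ge j 359 with h | h
  · exact glue t6_358 rfl j (by omega) h
  rcases lt_or_ge j 362 with h | h
  · exact glue t6_359 rfl j (by omega) h
  rcases lt_or_ge j 386 with h | h
  · exact glue t6_362 rfl j (by omega) h
  exact glue t6_386 rfl j (by omega) hj

lemma rowT7 : ∀ j, j < 459 → blkT 7 j = true := by
  intro j hj
  rcases lt_or_ge j 33 with h | h
  · exact glue t7_0 rfl j (by omega) h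
  rcases lt_or_ge j 38 with h | h
  · exact glue t7_33 rfl j (by omega) h
  rcases lt_or_ge j 58 with h | h
  · exact glue t7_38 rfl j (by omega) h
  rcases lt_or_ge j 79 with h | h
  · exact glue t7_58 rfl j (by omega) h
  rcases lt_or_ge j 107 with h | h
  · exact glue t7_79 rfl j (by omega) h
  rcases lt_or_ge j 135 with h | h
  · exact glue t7_107 rfl j (by omega) h
  rcases lt_or_ge j 163 with h | h
  · exact glue t7_135 rfl j (by omega) h
  rcases lt_or_ge j 191 with h | h
  · exact glue t7_163 rfl j (by omega) h
  rcases lt_or_ge j 219 with h | h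
  · exact glue t7_191 rfl j (by omega) h
  rcases lt_or_ge j 247 with h | h
  · exact glue t7_219 rfl j (by omega) h
  rcases lt_or_ge j 275 with h | h
  · exact glue t7_247 rfl j (by omega) h
  rcases lt_or_ge j 303 with h | h
  · exact glue t7_275 rfl j (by omega) h
  rcases lt_or_ge j 331 with h | h
  · exact glue t7_303 rfl j (by omega) h
  rcases lt_or_ge j 357 with h | h
  · exact glue t7_331 rfl j (by omega) h
  rcases lt_or_ge j 374 with h | h
  · exact glue t7_357 rfl j (by omega) h
  rcases lt_or_ge j 376 with h | h
  · exact glue t7_374 rfl j (by omega) h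
  rcases lt_or_ge j 377 with h | h
  · exact glue t7_376 rfl j (by omega) h
  rcases lt_or_ge j 394 with h | h
  · exact glue t7_377 rfl j (by omega) h
  rcases lt_or_ge j 456 with h | h
  · exact glue t7_394 rfl j (by omega) h
  exact glue t7_456 rfl j (by omega) hj

lemma rowT8 : ∀ j, j < 459 → blkT 8 j = true := by
  intro j hj
  rcases lt_or_ge j 36 with h | h
  · exact glue t8_0 rfl j (by omega) h
  rcases lt_or_ge j 38 with h | h
  · exact glue t8_36 rfl j (by omega) h
  rcases lt_or_ge j 52 with h | h
  · exact glue t8_38 rfl j (by omega) h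
  rcases lt_or_ge j 59 with h | h
  · exact glue t8_52 rfl j (by omega) h
  rcases lt_or_ge j 77 with h | h
  · exact glue t8_59 rfl j (by omega) h
  rcases lt_or_ge j 104 with h | h
  · exact glue t8_77 rfl j (by omega) h
  rcases lt_or_ge j 132 with h | h
  · exact glue t8_104 rfl j (by omega) h
  rcases lt_or_ge j 160 with h | h
  · exact glue t8_132 rfl j (by omega) h
  rcases lt_or_ge j 188 with h | h
  · exact glue t8_160 rfl j (by omega) h
  rcases lt_or_ge j 216 with h | h
  · exact glue t8_188 rfl j (by omega) h
  rcases lt_or_ge j 244 with h | h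
  · exact glue t8_216 rfl j (by omega) h
  rcases lt_or_ge j 272 with h | h
  · exact glue t8_244 rfl j (by omega) h
  rcases lt_or_ge j 300 with h | h
  · exact glue t8_272 rfl j (by omega) h
  rcases lt_or_ge j 328 with h | h
  · exact glue t8_300 rfl j (by omega) h
  rcases lt_or_ge j 356 with h | h
  · exact glue t8_328 rfl j (by omega) h
  rcases lt_or_ge j 376 with h | h
  · exact glue t8_356 rfl j (by omega) h
  rcases lt_or_ge j 393 with h | h
  · exact glue t8_376 rfl j (by omega) h
  rcases lt_or_ge j 396 with h | h
  · exact glue t8_393 rfl j (by omega) h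
  rcases lt_or_ge j 441 with h | h
  · exact glue t8_396 rfl j (by omega) h
  exact glue t8_441 rfl j (by omega) hj

lemma rowT9 : ∀ j, j < 459 → blkT 9 j = true := by
  intro j hj
  rcases lt_or_ge j 36 with h | h
  · exact glue t9_0 rfl j (by omega) h
  rcases lt_or_ge j 37 with h | h
  · exact glue t9_36 rfl j (by omega) h
  rcases lt_or_ge j 38 with h | h
  · exact glue t9_37 rfl j (by omega) h
  rcases lt_or_ge j 46 with h | h
  · exact glue t9_38 rfl j (by omega) h
  rcases lt_or_ge j 58 with h | h
  · exact glue t9_46 rfl j (by omega) h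
  rcases lt_or_ge j 61 with h | h
  · exact glue t9_58 rfl j (by omega) h
  rcases lt_or_ge j 82 with h | h
  · exact glue t9_61 rfl j (by omega) h
  rcases lt_or_ge j 110 with h | h
  · exact glue t9_82 rfl j (by omega) h
  rcases lt_or_ge j 138 with h | h
  · exact glue t9_110 rfl j (by omega) h
  rcases lt_or_ge j 166 with h | h
  · exact glue t9_138 rfl j (by omega) h
  rcases lt_or_ge j 194 with h | h
  · exact glue t9_166 rfl j (by omega) h
  rcases lt_or_ge j 222 with h | h
  · exact glue t9_194 rfl j (by omega) h
  rcases lt_or_ge j 250 with h | h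
  · exact glue t9_222 rfl j (by omega) h
  rcases lt_or_ge j 278 with h | h
  · exact glue t9_250 rfl j (by omega) h
  rcases lt_or_ge j 306 with h | h
  · exact glue t9_278 rfl j (by omega) h
  rcases lt_or_ge j 334 with h | h
  · exact glue t9_306 rfl j (by omega) h
  rcases lt_or_ge j 362 with h | h
  · exact glue t9_334 rfl j (by omega) h
  rcases lt_or_ge j 390 with h | h
  · exact glue t9_362 rfl j (by omega) h
  rcases lt_or_ge j 395 with h | h
  · exact glue t9_390 rfl j (by omega) h
  rcases lt_or_ge j 413 with h | h
  · exact glue t9_395 rfl j (by omega) h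
  exact glue t9_413 rfl j (by omega) hj

lemma rowT10 : ∀ j, j < 459 → blkT 10 j = true := by
  intro j hj
  rcases lt_or_ge j 18 with h | h
  · exact glue t10_0 rfl j (by omega) h
  rcases lt_or_ge j 37 with h | h
  · exact glue t10_18 rfl j (by omega) h
  rcases lt_or_ge j 38 with h | h
  · exact glue t10_37 rfl j (by omega) h
  rcases lt_or_ge j 56 with h | h
  · exact glue t10_38 rfl j (by omega) h
  rcases lt_or_ge j 58 with h | h
  · exact glue t10_56 rfl j (by omega) h
  rcases lt_or_ge j 60 with h | h
  · exact glue t10_58 rfl j (by omega) h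
  rcases lt_or_ge j 68 with h | h
  · exact glue t10_60 rfl j (by omega) h
  rcases lt_or_ge j 94 with h | h
  · exact glue t10_68 rfl j (by omega) h
  rcases lt_or_ge j 122 with h | h
  · exact glue t10_94 rfl j (by omega) h
  rcases lt_or_ge j 150 with h | h
  · exact glue t10_122 rfl j (by omega) h
  rcases lt_or_ge j 178 with h | h
  · exact glue t10_150 rfl j (by omega) h
  rcases lt_or_ge j 206 with h | h
  · exact glue t10_178 rfl j (by omega) h
  rcases lt_or_ge j 234 with h | h
  · exact glue t10_206 rfl j (by omega) h
  rcases lt_or_ge j 262 with h | h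
  · exact glue t10_234 rfl j (by omega) h
  rcases lt_or_ge j 290 with h | h
  · exact glue t10_262 rfl j (by omega) h
  rcases lt_or_ge j 318 with h | h
  · exact glue t10_290 rfl j (by omega) h
  rcases lt_or_ge j 346 with h | h
  · exact glue t10_318 rfl j (by omega) h
  rcases lt_or_ge j 374 with h | h
  · exact glue t10_346 rfl j (by omega) h
  rcases lt_or_ge j 399 with h | h
  · exact glue t10_374 rfl j (by omega) h
  rcases lt_or_ge j 411 with h | h
  · exact glue t10_399 rfl j (by omega) h
  rcases lt_or_ge j 414 with h | h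
  · exact glue t10_411 rfl j (by omega) h
  rcases lt_or_ge j 445 with h | h
  · exact glue t10_414 rfl j (by omega) h
  exact glue t10_445 rfl j (by omega) hj

lemma rowT11 : ∀ j, j < 459 → blkT 11 j = true := by
  intro j hj
  rcases lt_or_ge j 34 with h | h
  · exact glue t11_0 rfl j (by omega) h
  rcases lt_or_ge j 35 with h | h
  · exact glue t11_34 rfl j (by omega) h
  rcases lt_or_ge j 36 with h | h
  · exact glue t11_35 rfl j (by omega) h
  rcases lt_or_ge j 37 with h | h
  · exact glue t11_36 rfl j (by omega) h
  rcases lt_or_ge j 55 with h | h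
  · exact glue t11_37 rfl j (by omega) h
  rcases lt_or_ge j 57 with h | h
  · exact glue t11_55 rfl j (by omega) h
  rcases lt_or_ge j 58 with h | h
  · exact glue t11_57 rfl j (by omega) h
  rcases lt_or_ge j 60 with h | h
  · exact glue t11_58 rfl j (by omega) h
  rcases lt_or_ge j 62 with h | h
  · exact glue t11_60 rfl j (by omega) h
  rcases lt_or_ge j 81 with h | h
  · exact glue t11_62 rfl j (by omega) h
  rcases lt_or_ge j 104 with h | h
  · exact glue t11_81 rfl j (by omega) h
  rcases lt_or_ge j 132 with h | h
  · exact glue t11_104 rfl j (by omega) h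
  rcases lt_or_ge j 160 with h | h
  · exact glue t11_132 rfl j (by omega) h
  rcases lt_or_ge j 188 with h | h
  · exact glue t11_160 rfl j (by omega) h
  rcases lt_or_ge j 216 with h | h
  · exact glue t11_188 rfl j (by omega) h
  rcases lt_or_ge j 244 with h | h
  · exact glue t11_216 rfl j (by omega) h
  rcases lt_or_ge j 272 with h | h
  · exact glue t11_244 rfl j (by omega) h
  rcases lt_or_ge j 300 with h | h
  · exact glue t11_272 rfl j (by omega) h
  rcases lt_or_ge j 328 with h | h
  · exact glue t11_300 rfl j (by omega) h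
  rcases lt_or_ge j 356 with h | h
  · exact glue t11_328 rfl j (by omega) h
  rcases lt_or_ge j 384 with h | h
  · exact glue t11_356 rfl j (by omega) h
  rcases lt_or_ge j 408 with h | h
  · exact glue t11_384 rfl j (by omega) h
  rcases lt_or_ge j 410 with h | h
  · exact glue t11_408 rfl j (by omega) h
  rcases lt_or_ge j 412 with h | h
  · exact glue t11_410 rfl j (by omega) h
  rcases lt_or_ge j 414 with h | h
  · exact glue t11_412 rfl j (by omega) h
  rcases lt_or_ge j 420 with h | h
  · exact glue t11_414 rfl j (by omega) h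
  exact glue t11_420 rfl j (by omega) hj

lemma rowT12 : ∀ j, j < 459 → blkT 12 j = true := by
  intro j hj
  rcases lt_or_ge j 34 with h | h
  · exact glue t12_0 rfl j (by omega) h
  rcases lt_or_ge j 35 with h | h
  · exact glue t12_34 rfl j (by omega) h
  rcases lt_or_ge j 36 with h | h
  · exact glue t12_35 rfl j (by omega) h
  rcases lt_or_ge j 52 with h | h
  · exact glue t12_36 rfl j (by omega) h
  rcases lt_or_ge j 55 with h | h
  · exact glue t12_52 rfl j (by omega) h
  rcases lt_or_ge j 56 with h | h
  · exact glue t12_55 rfl j (by omega) h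
  rcases lt_or_ge j 57 with h | h
  · exact glue t12_56 rfl j (by omega) h
  rcases lt_or_ge j 58 with h | h
  · exact glue t12_57 rfl j (by omega) h
  rcases lt_or_ge j 59 with h | h
  · exact glue t12_58 rfl j (by omega) h
  rcases lt_or_ge j 61 with h | h
  · exact glue t12_59 rfl j (by omega) h
  rcases lt_or_ge j 79 with h | h
  · exact glue t12_61 rfl j (by omega) h
  rcases lt_or_ge j 99 with h | h
  · exact glue t12_79 rfl j (by omega) h
  rcases lt_or_ge j 123 with h | h
  · exact glue t12_99 rfl j (by omega) h
  rcases lt_or_ge j 151 with h | h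
  · exact glue t12_123 rfl j (by omega) h
  rcases lt_or_ge j 179 with h | h
  · exact glue t12_151 rfl j (by omega) h
  rcases lt_or_ge j 207 with h | h
  · exact glue t12_179 rfl j (by omega) h
  rcases lt_or_ge j 235 with h | h
  · exact glue t12_207 rfl j (by omega) h
  rcases lt_or_ge j 263 with h | h
  · exact glue t12_235 rfl j (by omega) h
  rcases lt_or_ge j 291 with h | h
  · exact glue t12_263 rfl j (by omega) h
  rcases lt_or_ge j 319 with h | h
  · exact glue t12_291 rfl j (by omega) h
  rcases lt_or_ge j 347 with h | h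
  · exact glue t12_319 rfl j (by omega) h
  rcases lt_or_ge j 375 with h | h
  · exact glue t12_347 rfl j (by omega) h
  rcases lt_or_ge j 403 with h | h
  · exact glue t12_375 rfl j (by omega) h
  rcases lt_or_ge j 409 with h | h
  · exact glue t12_403 rfl j (by omega) h
  rcases lt_or_ge j 410 with h | h
  · exact glue t12_409 rfl j (by omega) h
  rcases lt_or_ge j 411 with h | h
  · exact glue t12_410 rfl j (by omega) h
  rcases lt_or_ge j 413 with h | h
  · exact glue t12_411 rfl j (by omega) h
  rcases lt_or_ge j 415 with h | h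
  · exact glue t12_413 rfl j (by omega) h
  rcases lt_or_ge j 417 with h | h
  · exact glue t12_415 rfl j (by omega) h
  exact glue t12_417 rfl j (by omega) hj

lemma rowT13 : ∀ j, j < 459 → blkT 13 j = true := by
  intro j hj
  rcases lt_or_ge j 35 with h | h
  · exact glue t13_0 rfl j (by omega) h
  rcases lt_or_ge j 52 with h | h
  · exact glue t13_35 rfl j (by omega) h
  rcases lt_or_ge j 53 with h | h
  · exact glue t13_52 rfl j (by omega) h
  rcases lt_or_ge j 54 with h | h
  · exact glue t13_53 rfl j (by omega) h
  rcases lt_or_ge j 55 with h | h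
  · exact glue t13_54 rfl j (by omega) h
  rcases lt_or_ge j 56 with h | h
  · exact glue t13_55 rfl j (by omega) h
  rcases lt_or_ge j 57 with h | h
  · exact glue t13_56 rfl j (by omega) h
  rcases lt_or_ge j 58 with h | h
  · exact glue t13_57 rfl j (by omega) h
  rcases lt_or_ge j 59 with h | h
  · exact glue t13_58 rfl j (by omega) h
  rcases lt_or_ge j 60 with h | h
  · exact glue t13_59 rfl j (by omega) h
  rcases lt_or_ge j 62 with h | h
  · exact glue t13_60 rfl j (by omega) h
  rcases lt_or_ge j 80 with h | h
  · exact glue t13_62 rfl j (by omega) h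
  rcases lt_or_ge j 99 with h | h
  · exact glue t13_80 rfl j (by omega) h
  rcases lt_or_ge j 122 with h | h
  · exact glue t13_99 rfl j (by omega) h
  rcases lt_or_ge j 150 with h | h
  · exact glue t13_122 rfl j (by omega) h
  rcases lt_or_ge j 178 with h | h
  · exact glue t13_150 rfl j (by omega) h
  rcases lt_or_ge j 206 with h | h
  · exact glue t13_178 rfl j (by omega) h
  rcases lt_or_ge j 234 with h | h
  · exact glue t13_206 rfl j (by omega) h
  rcases lt_or_ge j 262 with h | h
  · exact glue t13_234 rfl j (by omega) h
  rcases lt_or_ge j 290 with h | h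
  · exact glue t13_262 rfl j (by omega) h
  rcases lt_or_ge j 318 with h | h
  · exact glue t13_290 rfl j (by omega) h
  rcases lt_or_ge j 346 with h | h
  · exact glue t13_318 rfl j (by omega) h
  rcases lt_or_ge j 374 with h | h
  · exact glue t13_346 rfl j (by omega) h
  rcases lt_or_ge j 402 with h | h
  · exact glue t13_374 rfl j (by omega) h
  rcases lt_or_ge j 409 with h | h
  · exact glue t13_402 rfl j (by omega) h
  rcases lt_or_ge j 410 with h | h
  · exact glue t13_409 rfl j (by omega) h
  rcases lt_or_ge j 411 with h | h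
  · exact glue t13_410 rfl j (by omega) h
  rcases lt_or_ge j 412 with h | h
  · exact glue t13_411 rfl j (by omega) h
  rcases lt_or_ge j 413 with h | h
  · exact glue t13_412 rfl j (by omega) h
  rcases lt_or_ge j 415 with h | h
  · exact glue t13_413 rfl j (by omega) h
  rcases lt_or_ge j 417 with h | h
  · exact glue t13_415 rfl j (by omega) h
  rcases lt_or_ge j 436 with h | h
  · exact glue t13_417 rfl j (by omega) h
  exact glue t13_436 rfl j (by omega) hj

lemma rowT14 : ∀ j, j < 459 → blkT 14 j = true := by
  intro j hj
  rcases lt_or_ge j 52 with h | h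
  · exact glue t14_0 rfl j (by omega) h
  rcases lt_or_ge j 53 with h | h
  · exact glue t14_52 rfl j (by omega) h
  rcases lt_or_ge j 54 with h | h
  · exact glue t14_53 rfl j (by omega) h
  rcases lt_or_ge j 55 with h | h
  · exact glue t14_54 rfl j (by omega) h
  rcases lt_or_ge j 56 with h | h
  · exact glue t14_55 rfl j (by omega) h
  rcases lt_or_ge j 57 with h | h
  · exact glue t14_56 rfl j (by omega) h
  rcases lt_or_ge j 58 with h | h
  · exact glue t14_57 rfl j (by omega) h
  rcases lt_or_ge j 59 with h | h
  · exact glue t14_58 rfl j (by omega) h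
  rcases lt_or_ge j 61 with h | h
  · exact glue t14_59 rfl j (by omega) h
  rcases lt_or_ge j 78 with h | h
  · exact glue t14_61 rfl j (by omega) h
  rcases lt_or_ge j 80 with h | h
  · exact glue t14_78 rfl j (by omega) h
  rcases lt_or_ge j 97 with h | h
  · exact glue t14_80 rfl j (by omega) h
  rcases lt_or_ge j 116 with h | h
  · exact glue t14_97 rfl j (by omega) h
  rcases lt_or_ge j 144 with h | h
  · exact glue t14_116 rfl j (by omega) h
  rcases lt_or_ge j 172 with h | h
  · exact glue t14_144 rfl j (by omega) h
  rcases lt_or_ge j 200 with h | h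
  · exact glue t14_172 rfl j (by omega) h
  rcases lt_or_ge j 228 with h | h
  · exact glue t14_200 rfl j (by omega) h
  rcases lt_or_ge j 256 with h | h
  · exact glue t14_228 rfl j (by omega) h
  rcases lt_or_ge j 284 with h | h
  · exact glue t14_256 rfl j (by omega) h
  rcases lt_or_ge j 312 with h | h
  · exact glue t14_284 rfl j (by omega) h
  rcases lt_or_ge j 340 with h | h
  · exact glue t14_312 rfl j (by omega) h
  rcases lt_or_ge j 368 with h | h
  · exact glue t14_340 rfl j (by omega) h
  rcases lt_or_ge j 396 with h | h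
  · exact glue t14_368 rfl j (by omega) h
  rcases lt_or_ge j 409 with h | h
  · exact glue t14_396 rfl j (by omega) h
  rcases lt_or_ge j 410 with h | h
  · exact glue t14_409 rfl j (by omega) h
  rcases lt_or_ge j 411 with h | h
  · exact glue t14_410 rfl j (by omega) h
  rcases lt_or_ge j 412 with h | h
  · exact glue t14_411 rfl j (by omega) h
  rcases lt_or_ge j 414 with h | h
  · exact glue t14_412 rfl j (by omega) h
  rcases lt_or_ge j 416 with h | h
  · exact glue t14_414 rfl j (by omega) h
  rcases lt_or_ge j 434 with h | h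
  · exact glue t14_416 rfl j (by omega) h
  rcases lt_or_ge j 437 with h | h
  · exact glue t14_434 rfl j (by omega) h
  exact glue t14_437 rfl j (by omega) hj

lemma rowT15 : ∀ j, j < 459 → blkT 15 j = true := by
  intro j hj
  rcases lt_or_ge j 52 with h | h
  · exact glue t15_0 rfl j (by omega) h
  rcases lt_or_ge j 53 with h | h
  · exact glue t15_52 rfl j (by omega) h
  rcases lt_or_ge j 54 with h | h
  · exact glue t15_53 rfl j (by omega) h
  rcases lt_or_ge j 55 with h | h
  · exact glue t15_54 rfl j (by omega) h
  rcases lt_or_ge j 56 with h | h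
  · exact glue t15_55 rfl j (by omega) h
  rcases lt_or_ge j 57 with h | h
  · exact glue t15_56 rfl j (by omega) h
  rcases lt_or_ge j 58 with h | h
  · exact glue t15_57 rfl j (by omega) h
  rcases lt_or_ge j 74 with h | h
  · exact glue t15_58 rfl j (by omega) h
  rcases lt_or_ge j 76 with h | h
  · exact glue t15_74 rfl j (by omega) h
  rcases lt_or_ge j 77 with h | h
  · exact glue t15_76 rfl j (by omega) h
  rcases lt_or_ge j 78 with h | h
  · exact glue t15_77 rfl j (by omega) h
  rcases lt_or_ge j 79 with h | h
  · exact glue t15_78 rfl j (by omega) h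
  rcases lt_or_ge j 90 with h | h
  · exact glue t15_79 rfl j (by omega) h
  rcases lt_or_ge j 103 with h | h
  · exact glue t15_90 rfl j (by omega) h
  rcases lt_or_ge j 130 with h | h
  · exact glue t15_103 rfl j (by omega) h
  rcases lt_or_ge j 158 with h | h
  · exact glue t15_130 rfl j (by omega) h
  rcases lt_or_ge j 186 with h | h
  · exact glue t15_158 rfl j (by omega) h
  rcases lt_or_ge j 214 with h | h
  · exact glue t15_186 rfl j (by omega) h
  rcases lt_or_ge j 242 with h | h
  · exact glue t15_214 rfl j (by omega) h
  rcases lt_or_ge j 270 with h | h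
  · exact glue t15_242 rfl j (by omega) h
  rcases lt_or_ge j 298 with h | h
  · exact glue t15_270 rfl j (by omega) h
  rcases lt_or_ge j 326 with h | h
  · exact glue t15_298 rfl j (by omega) h
  rcases lt_or_ge j 354 with h | h
  · exact glue t15_326 rfl j (by omega) h
  rcases lt_or_ge j 382 with h | h
  · exact glue t15_354 rfl j (by omega) h
  rcases lt_or_ge j 408 with h | h
  · exact glue t15_382 rfl j (by omega) h
  rcases lt_or_ge j 410 with h | h
  · exact glue t15_408 rfl j (by omega) h
  rcases lt_or_ge j 411 with h | h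
  · exact glue t15_410 rfl j (by omega) h
  rcases lt_or_ge j 413 with h | h
  · exact glue t15_411 rfl j (by omega) h
  rcases lt_or_ge j 420 with h | h
  · exact glue t15_413 rfl j (by omega) h
  rcases lt_or_ge j 434 with h | h
  · exact glue t15_420 rfl j (by omega) h
  rcases lt_or_ge j 436 with h | h
  · exact glue t15_434 rfl j (by omega) h
  rcases lt_or_ge j 440 with h | h
  · exact glue t15_436 rfl j (by omega) h
  exact glue t15_440 rfl j (by omega) hj

lemma rowT16 : ∀ j, j < 459 → blkT 16 j = true := by
  intro j hj
  rcases lt_or_ge j 52 with h | h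
  · exact glue t16_0 rfl j (by omega) h
  rcases lt_or_ge j 54 with h | h
  · exact glue t16_52 rfl j (by omega) h
  rcases lt_or_ge j 55 with h | h
  · exact glue t16_54 rfl j (by omega) h
  rcases lt_or_ge j 56 with h | h
  · exact glue t16_55 rfl j (by omega) h
  rcases lt_or_ge j 72 with h | h
  · exact glue t16_56 rfl j (by omega) h
  rcases lt_or_ge j 74 with h | h
  · exact glue t16_72 rfl j (by omega) h
  rcases lt_or_ge j 75 with h | h
  · exact glue t16_74 rfl j (by omega) h
  rcases lt_or_ge j 76 with h | h
  · exact glue t16_75 rfl j (by omega) h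
  rcases lt_or_ge j 77 with h | h
  · exact glue t16_76 rfl j (by omega) h
  rcases lt_or_ge j 78 with h | h
  · exact glue t16_77 rfl j (by omega) h
  rcases lt_or_ge j 80 with h | h
  · exact glue t16_78 rfl j (by omega) h
  rcases lt_or_ge j 97 with h | h
  · exact glue t16_80 rfl j (by omega) h
  rcases lt_or_ge j 99 with h | h
  · exact glue t16_97 rfl j (by omega) h
  rcases lt_or_ge j 117 with h | h
  · exact glue t16_99 rfl j (by omega) h
  rcases lt_or_ge j 138 with h | h
  · exact glue t16_117 rfl j (by omega) h
  rcases lt_or_ge j 166 with h | h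
  · exact glue t16_138 rfl j (by omega) h
  rcases lt_or_ge j 194 with h | h
  · exact glue t16_166 rfl j (by omega) h
  rcases lt_or_ge j 222 with h | h
  · exact glue t16_194 rfl j (by omega) h
  rcases lt_or_ge j 250 with h | h
  · exact glue t16_222 rfl j (by omega) h
  rcases lt_or_ge j 278 with h | h
  · exact glue t16_250 rfl j (by omega) h
  rcases lt_or_ge j 306 with h | h
  · exact glue t16_278 rfl j (by omega) h
  rcases lt_or_ge j 334 with h | h
  · exact glue t16_306 rfl j (by omega) h
  rcases lt_or_ge j 362 with h | h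
  · exact glue t16_334 rfl j (by omega) h
  rcases lt_or_ge j 390 with h | h
  · exact glue t16_362 rfl j (by omega) h
  rcases lt_or_ge j 409 with h | h
  · exact glue t16_390 rfl j (by omega) h
  rcases lt_or_ge j 411 with h | h
  · exact glue t16_409 rfl j (by omega) h
  rcases lt_or_ge j 415 with h | h
  · exact glue t16_411 rfl j (by omega) h
  rcases lt_or_ge j 431 with h | h
  · exact glue t16_415 rfl j (by omega) h
  rcases lt_or_ge j 433 with h | h
  · exact glue t16_431 rfl j (by omega) h
  rcases lt_or_ge j 435 with h | h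
  · exact glue t16_433 rfl j (by omega) h
  rcases lt_or_ge j 437 with h | h
  · exact glue t16_435 rfl j (by omega) h
  rcases lt_or_ge j 441 with h | h
  · exact glue t16_437 rfl j (by omega) h
  exact glue t16_441 rfl j (by omega) hj

lemma rowT17 : ∀ j, j < 459 → blkT 17 j = true := by
  intro j hj
  rcases lt_or_ge j 68 with h | h
  · exact glue t17_0 rfl j (by omega) h
  rcases lt_or_ge j 72 with h | h
  · exact glue t17_68 rfl j (by omega) h
  rcases lt_or_ge j 73 with h | h
  · exact glue t17_72 rfl j (by omega) h
  rcases lt_or_ge j 74 with h | h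
  · exact glue t17_73 rfl j (by omega) h
  rcases lt_or_ge j 75 with h | h
  · exact glue t17_74 rfl j (by omega) h
  rcases lt_or_ge j 76 with h | h
  · exact glue t17_75 rfl j (by omega) h
  rcases lt_or_ge j 78 with h | h
  · exact glue t17_76 rfl j (by omega) h
  rcases lt_or_ge j 94 with h | h
  · exact glue t17_78 rfl j (by omega) h
  rcases lt_or_ge j 95 with h | h
  · exact glue t17_94 rfl j (by omega) h
  rcases lt_or_ge j 96 with h | h
  · exact glue t17_95 rfl j (by omega) h
  rcases lt_or_ge j 97 with h | h
  · exact glue t17_96 rfl j (by omega) h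
  rcases lt_or_ge j 113 with h | h
  · exact glue t17_97 rfl j (by omega) h
  rcases lt_or_ge j 116 with h | h
  · exact glue t17_113 rfl j (by omega) h
  rcases lt_or_ge j 130 with h | h
  · exact glue t17_116 rfl j (by omega) h
  rcases lt_or_ge j 154 with h | h
  · exact glue t17_130 rfl j (by omega) h
  rcases lt_or_ge j 182 with h | h
  · exact glue t17_154 rfl j (by omega) h
  rcases lt_or_ge j 210 with h | h
  · exact glue t17_182 rfl j (by omega) h
  rcases lt_or_ge j 238 with h | h
  · exact glue t17_210 rfl j (by omega) h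
  rcases lt_or_ge j 266 with h | h
  · exact glue t17_238 rfl j (by omega) h
  rcases lt_or_ge j 294 with h | h
  · exact glue t17_266 rfl j (by omega) h
  rcases lt_or_ge j 322 with h | h
  · exact glue t17_294 rfl j (by omega) h
  rcases lt_or_ge j 350 with h | h
  · exact glue t17_322 rfl j (by omega) h
  rcases lt_or_ge j 378 with h | h
  · exact glue t17_350 rfl j (by omega) h
  rcases lt_or_ge j 406 with h | h
  · exact glue t17_378 rfl j (by omega) h
  rcases lt_or_ge j 410 with h | h
  · exact glue t17_406 rfl j (by omega) h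
  rcases lt_or_ge j 413 with h | h
  · exact glue t17_410 rfl j (by omega) h
  rcases lt_or_ge j 430 with h | h
  · exact glue t17_413 rfl j (by omega) h
  rcases lt_or_ge j 432 with h | h
  · exact glue t17_430 rfl j (by omega) h
  rcases lt_or_ge j 433 with h | h
  · exact glue t17_432 rfl j (by omega) h
  rcases lt_or_ge j 434 with h | h
  · exact glue t17_433 rfl j (by omega) h
  rcases lt_or_ge j 435 with h | h
  · exact glue t17_434 rfl j (by omega) h
  rcases lt_or_ge j 437 with h | h
  · exact glue t17_435 rfl j (by omega) h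
  rcases lt_or_ge j 440 with h | h
  · exact glue t17_437 rfl j (by omega) h
  exact glue t17_440 rfl j (by omega) hj

lemma rowT18 : ∀ j, j < 459 → blkT 18 j = true := by
  intro j hj
  rcases lt_or_ge j 70 with h | h
  · exact glue t18_0 rfl j (by omega) h
  rcases lt_or_ge j 72 with h | h
  · exact glue t18_70 rfl j (by omega) h
  rcases lt_or_ge j 73 with h | h
  · exact glue t18_72 rfl j (by omega) h
  rcases lt_or_ge j 75 with h | h
  · exact glue t18_73 rfl j (by omega) h
  rcases lt_or_ge j 91 with h | h
  · exact glue t18_75 rfl j (by omega) h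
  rcases lt_or_ge j 92 with h | h
  · exact glue t18_91 rfl j (by omega) h
  rcases lt_or_ge j 93 with h | h
  · exact glue t18_92 rfl j (by omega) h
  rcases lt_or_ge j 94 with h | h
  · exact glue t18_93 rfl j (by omega) h
  rcases lt_or_ge j 95 with h | h
  · exact glue t18_94 rfl j (by omega) h
  rcases lt_or_ge j 96 with h | h
  · exact glue t18_95 rfl j (by omega) h
  rcases lt_or_ge j 113 with h | h
  · exact glue t18_96 rfl j (by omega) h
  rcases lt_or_ge j 115 with h | h
  · exact glue t18_113 rfl j (by omega) h
  rcases lt_or_ge j 130 with h | h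
  · exact glue t18_115 rfl j (by omega) h
  rcases lt_or_ge j 135 with h | h
  · exact glue t18_130 rfl j (by omega) h
  rcases lt_or_ge j 159 with h | h
  · exact glue t18_135 rfl j (by omega) h
  rcases lt_or_ge j 187 with h | h
  · exact glue t18_159 rfl j (by omega) h
  rcases lt_or_ge j 215 with h | h
  · exact glue t18_187 rfl j (by omega) h
  rcases lt_or_ge j 243 with h | h
  · exact glue t18_215 rfl j (by omega) h
  rcases lt_or_ge j 271 with h | h
  · exact glue t18_243 rfl j (by omega) h
  rcases lt_or_ge j 299 with h | h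
  · exact glue t18_271 rfl j (by omega) h
  rcases lt_or_ge j 327 with h | h
  · exact glue t18_299 rfl j (by omega) h
  rcases lt_or_ge j 355 with h | h
  · exact glue t18_327 rfl j (by omega) h
  rcases lt_or_ge j 383 with h | h
  · exact glue t18_355 rfl j (by omega) h
  rcases lt_or_ge j 408 with h | h
  · exact glue t18_383 rfl j (by omega) h
  rcases lt_or_ge j 417 with h | h
  · exact glue t18_408 rfl j (by omega) h
  rcases lt_or_ge j 428 with h | h
  · exact glue t18_417 rfl j (by omega) h
  rcases lt_or_ge j 430 with h | h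
  · exact glue t18_428 rfl j (by omega) h
  rcases lt_or_ge j 432 with h | h
  · exact glue t18_430 rfl j (by omega) h
  rcases lt_or_ge j 433 with h | h
  · exact glue t18_432 rfl j (by omega) h
  rcases lt_or_ge j 434 with h | h
  · exact glue t18_433 rfl j (by omega) h
  rcases lt_or_ge j 435 with h | h
  · exact glue t18_434 rfl j (by omega) h
  rcases lt_or_ge j 437 with h | h
  · exact glue t18_435 rfl j (by omega) h
  rcases lt_or_ge j 440 with h | h
  · exact glue t18_437 rfl j (by omega) h
  exact glue t18_440 rfl j (by omega) hj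

lemma rowT19 : ∀ j, j < 459 → blkT 19 j = true := by
  intro j hj
  rcases lt_or_ge j 86 with h | h
  · exact glue t19_0 rfl j (by omega) h
  rcases lt_or_ge j 89 with h | h
  · exact glue t19_86 rfl j (by omega) h
  rcases lt_or_ge j 90 with h | h
  · exact glue t19_89 rfl j (by omega) h
  rcases lt_or_ge j 91 with h | h
  · exact glue t19_90 rfl j (by omega) h
  rcases lt_or_ge j 92 with h | h
  · exact glue t19_91 rfl j (by omega) h
  rcases lt_or_ge j 94 with h | h
  · exact glue t19_92 rfl j (by omega) h
  rcases lt_or_ge j 109 with h | h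
  · exact glue t19_94 rfl j (by omega) h
  rcases lt_or_ge j 110 with h | h
  · exact glue t19_109 rfl j (by omega) h
  rcases lt_or_ge j 111 with h | h
  · exact glue t19_110 rfl j (by omega) h
  rcases lt_or_ge j 112 with h | h
  · exact glue t19_111 rfl j (by omega) h
  rcases lt_or_ge j 113 with h | h
  · exact glue t19_112 rfl j (by omega) h
  rcases lt_or_ge j 114 with h | h
  · exact glue t19_113 rfl j (by omega) h
  rcases lt_or_ge j 131 with h | h
  · exact glue t19_114 rfl j (by omega) h
  rcases lt_or_ge j 132 with h | h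
  · exact glue t19_131 rfl j (by omega) h
  rcases lt_or_ge j 133 with h | h
  · exact glue t19_132 rfl j (by omega) h
  rcases lt_or_ge j 150 with h | h
  · exact glue t19_133 rfl j (by omega) h
  rcases lt_or_ge j 151 with h | h
  · exact glue t19_150 rfl j (by omega) h
  rcases lt_or_ge j 157 with h | h
  · exact glue t19_151 rfl j (by omega) h
  rcases lt_or_ge j 179 with h | h
  · exact glue t19_157 rfl j (by omega) h
  rcases lt_or_ge j 207 with h | h
  · exact glue t19_179 rfl j (by omega) h
  rcases lt_or_ge j 235 with h | h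
  · exact glue t19_207 rfl j (by omega) h
  rcases lt_or_ge j 263 with h | h
  · exact glue t19_235 rfl j (by omega) h
  rcases lt_or_ge j 291 with h | h
  · exact glue t19_263 rfl j (by omega) h
  rcases lt_or_ge j 319 with h | h
  · exact glue t19_291 rfl j (by omega) h
  rcases lt_or_ge j 347 with h | h
  · exact glue t19_319 rfl j (by omega) h
  rcases lt_or_ge j 375 with h | h
  · exact glue t19_347 rfl j (by omega) h
  rcases lt_or_ge j 403 with h | h
  · exact glue t19_375 rfl j (by omega) h
  rcases lt_or_ge j 424 with h | h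
  · exact glue t19_403 rfl j (by omega) h
  rcases lt_or_ge j 428 with h | h
  · exact glue t19_424 rfl j (by omega) h
  rcases lt_or_ge j 430 with h | h
  · exact glue t19_428 rfl j (by omega) h
  rcases lt_or_ge j 431 with h | h
  · exact glue t19_430 rfl j (by omega) h
  rcases lt_or_ge j 432 with h | h
  · exact glue t19_431 rfl j (by omega) h
  rcases lt_or_ge j 433 with h | h
  · exact glue t19_432 rfl j (by omega) h
  rcases lt_or_ge j 434 with h | h
  · exact glue t19_433 rfl j (by omega) h
  rcases lt_or_ge j 435 with h | h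
  · exact glue t19_434 rfl j (by omega) h
  rcases lt_or_ge j 437 with h | h
  · exact glue t19_435 rfl j (by omega) h
  rcases lt_or_ge j 439 with h | h
  · exact glue t19_437 rfl j (by omega) h
  exact glue t19_439 rfl j (by omega) hj

lemma rowT20 : ∀ j, j < 459 → blkT 20 j = true := by
  intro j hj
  rcases lt_or_ge j 88 with h | h
  · exact glue t20_0 rfl j (by omega) h
  rcases lt_or_ge j 105 with h | h
  · exact glue t20_88 rfl j (by omega) h
  rcases lt_or_ge j 107 with h | h
  · exact glue t20_105 rfl j (by omega) h
  rcases lt_or_ge j 108 with h | h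
  · exact glue t20_107 rfl j (by omega) h
  rcases lt_or_ge j 109 with h | h
  · exact glue t20_108 rfl j (by omega) h
  rcases lt_or_ge j 110 with h | h
  · exact glue t20_109 rfl j (by omega) h
  rcases lt_or_ge j 111 with h | h
  · exact glue t20_110 rfl j (by omega) h
  rcases lt_or_ge j 121 with h | h
  · exact glue t20_111 rfl j (by omega) h
  rcases lt_or_ge j 128 with h | h
  · exact glue t20_121 rfl j (by omega) h
  rcases lt_or_ge j 129 with h | h
  · exact glue t20_128 rfl j (by omega) h
  rcases lt_or_ge j 130 with h | h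
  · exact glue t20_129 rfl j (by omega) h
  rcases lt_or_ge j 131 with h | h
  · exact glue t20_130 rfl j (by omega) h
  rcases lt_or_ge j 148 with h | h
  · exact glue t20_131 rfl j (by omega) h
  rcases lt_or_ge j 150 with h | h
  · exact glue t20_148 rfl j (by omega) h
  rcases lt_or_ge j 167 with h | h
  · exact glue t20_150 rfl j (by omega) h
  rcases lt_or_ge j 168 with h | h
  · exact glue t20_167 rfl j (by omega) h
  rcases lt_or_ge j 173 with h | h
  · exact glue t20_168 rfl j (by omega) h
  rcases lt_or_ge j 195 with h | h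
  · exact glue t20_173 rfl j (by omega) h
  rcases lt_or_ge j 223 with h | h
  · exact glue t20_195 rfl j (by omega) h
  rcases lt_or_ge j 251 with h | h
  · exact glue t20_223 rfl j (by omega) h
  rcases lt_or_ge j 279 with h | h
  · exact glue t20_251 rfl j (by omega) h
  rcases lt_or_ge j 307 with h | h
  · exact glue t20_279 rfl j (by omega) h
  rcases lt_or_ge j 335 with h | h
  · exact glue t20_307 rfl j (by omega) h
  rcases lt_or_ge j 363 with h | h
  · exact glue t20_335 rfl j (by omega) h
  rcases lt_or_ge j 391 with h | h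
  · exact glue t20_363 rfl j (by omega) h
  rcases lt_or_ge j 419 with h | h
  · exact glue t20_391 rfl j (by omega) h
  rcases lt_or_ge j 428 with h | h
  · exact glue t20_419 rfl j (by omega) h
  rcases lt_or_ge j 431 with h | h
  · exact glue t20_428 rfl j (by omega) h
  rcases lt_or_ge j 433 with h | h
  · exact glue t20_431 rfl j (by omega) h
  rcases lt_or_ge j 435 with h | h
  · exact glue t20_433 rfl j (by omega) h
  rcases lt_or_ge j 438 with h | h
  · exact glue t20_435 rfl j (by omega) h
  rcases lt_or_ge j 440 with h | h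
  · exact glue t20_438 rfl j (by omega) h
  exact glue t20_440 rfl j (by omega) hj

lemma rowT21 : ∀ j, j < 459 → blkT 21 j = true := by
  intro j hj
  rcases lt_or_ge j 103 with h | h
  · exact glue t21_0 rfl j (by omega) h
  rcases lt_or_ge j 119 with h | h
  · exact glue t21_103 rfl j (by omega) h
  rcases lt_or_ge j 124 with h | h
  · exact glue t21_119 rfl j (by omega) h
  rcases lt_or_ge j 125 with h | h
  · exact glue t21_124 rfl j (by omega) h
  rcases lt_or_ge j 126 with h | h
  · exact glue t21_125 rfl j (by omega) h
  rcases lt_or_ge j 128 with h | h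
  · exact glue t21_126 rfl j (by omega) h
  rcases lt_or_ge j 143 with h | h
  · exact glue t21_128 rfl j (by omega) h
  rcases lt_or_ge j 146 with h | h
  · exact glue t21_143 rfl j (by omega) h
  rcases lt_or_ge j 147 with h | h
  · exact glue t21_146 rfl j (by omega) h
  rcases lt_or_ge j 148 with h | h
  · exact glue t21_147 rfl j (by omega) h
  rcases lt_or_ge j 165 with h | h
  · exact glue t21_148 rfl j (by omega) h
  rcases lt_or_ge j 166 with h | h
  · exact glue t21_165 rfl j (by omega) h
  rcases lt_or_ge j 167 with h | h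
  · exact glue t21_166 rfl j (by omega) h
  rcases lt_or_ge j 184 with h | h
  · exact glue t21_167 rfl j (by omega) h
  rcases lt_or_ge j 186 with h | h
  · exact glue t21_184 rfl j (by omega) h
  rcases lt_or_ge j 203 with h | h
  · exact glue t21_186 rfl j (by omega) h
  rcases lt_or_ge j 224 with h | h
  · exact glue t21_203 rfl j (by omega) h
  rcases lt_or_ge j 252 with h | h
  · exact glue t21_224 rfl j (by omega) h
  rcases lt_or_ge j 280 with h | h
  · exact glue t21_252 rfl j (by omega) h
  rcases lt_or_ge j 308 with h | h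
  · exact glue t21_280 rfl j (by omega) h
  rcases lt_or_ge j 336 with h | h
  · exact glue t21_308 rfl j (by omega) h
  rcases lt_or_ge j 364 with h | h
  · exact glue t21_336 rfl j (by omega) h
  rcases lt_or_ge j 392 with h | h
  · exact glue t21_364 rfl j (by omega) h
  rcases lt_or_ge j 420 with h | h
  · exact glue t21_392 rfl j (by omega) h
  rcases lt_or_ge j 430 with h | h
  · exact glue t21_420 rfl j (by omega) h
  rcases lt_or_ge j 435 with h | h
  · exact glue t21_430 rfl j (by omega) h
  rcases lt_or_ge j 439 with h | h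
  · exact glue t21_435 rfl j (by omega) h
  exact glue t21_439 rfl j (by omega) hj

lemma rowT22 : ∀ j, j < 459 → blkT 22 j = true := by
  intro j hj
  rcases lt_or_ge j 120 with h | h
  · exact glue t22_0 rfl j (by omega) h
  rcases lt_or_ge j 138 with h | h
  · exact glue t22_120 rfl j (by omega) h
  rcases lt_or_ge j 141 with h | h
  · exact glue t22_138 rfl j (by omega) h
  rcases lt_or_ge j 143 with h | h
  · exact glue t22_141 rfl j (by omega) h
  rcases lt_or_ge j 157 with h | h
  · exact glue t22_143 rfl j (by omega) h
  rcases lt_or_ge j 162 with h | h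
  · exact glue t22_157 rfl j (by omega) h
  rcases lt_or_ge j 164 with h | h
  · exact glue t22_162 rfl j (by omega) h
  rcases lt_or_ge j 179 with h | h
  · exact glue t22_164 rfl j (by omega) h
  rcases lt_or_ge j 182 with h | h
  · exact glue t22_179 rfl j (by omega) h
  rcases lt_or_ge j 183 with h | h
  · exact glue t22_182 rfl j (by omega) h
  rcases lt_or_ge j 198 with h | h
  · exact glue t22_183 rfl j (by omega) h
  rcases lt_or_ge j 201 with h | h
  · exact glue t22_198 rfl j (by omega) h
  rcases lt_or_ge j 212 with h | h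
  · exact glue t22_201 rfl j (by omega) h
  rcases lt_or_ge j 219 with h | h
  · exact glue t22_212 rfl j (by omega) h
  rcases lt_or_ge j 231 with h | h
  · exact glue t22_219 rfl j (by omega) h
  rcases lt_or_ge j 244 with h | h
  · exact glue t22_231 rfl j (by omega) h
  rcases lt_or_ge j 267 with h | h
  · exact glue t22_244 rfl j (by omega) h
  rcases lt_or_ge j 295 with h | h
  · exact glue t22_267 rfl j (by omega) h
  rcases lt_or_ge j 323 with h | h
  · exact glue t22_295 rfl j (by omega) h
  rcases lt_or_ge j 351 with h | h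
  · exact glue t22_323 rfl j (by omega) h
  rcases lt_or_ge j 379 with h | h
  · exact glue t22_351 rfl j (by omega) h
  rcases lt_or_ge j 407 with h | h
  · exact glue t22_379 rfl j (by omega) h
  rcases lt_or_ge j 429 with h | h
  · exact glue t22_407 rfl j (by omega) h
  rcases lt_or_ge j 439 with h | h
  · exact glue t22_429 rfl j (by omega) h
  exact glue t22_439 rfl j (by omega) hj

lemma rowT23 : ∀ j, j < 459 → blkT 23 j = true := by
  intro j hj
  rcases lt_or_ge j 153 with h | h
  · exact glue t23_0 rfl j (by omega) h
  rcases lt_or_ge j 157 with h | h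
  · exact glue t23_153 rfl j (by omega) h
  rcases lt_or_ge j 173 with h | h
  · exact glue t23_157 rfl j (by omega) h
  rcases lt_or_ge j 176 with h | h
  · exact glue t23_173 rfl j (by omega) h
  rcases lt_or_ge j 178 with h | h
  · exact glue t23_176 rfl j (by omega) h
  rcases lt_or_ge j 189 with h | h
  · exact glue t23_178 rfl j (by omega) h
  rcases lt_or_ge j 195 with h | h
  · exact glue t23_189 rfl j (by omega) h
  rcases lt_or_ge j 197 with h | h
  · exact glue t23_195 rfl j (by omega) h
  rcases lt_or_ge j 199 with h | h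
  · exact glue t23_197 rfl j (by omega) h
  rcases lt_or_ge j 214 with h | h
  · exact glue t23_199 rfl j (by omega) h
  rcases lt_or_ge j 216 with h | h
  · exact glue t23_214 rfl j (by omega) h
  rcases lt_or_ge j 217 with h | h
  · exact glue t23_216 rfl j (by omega) h
  rcases lt_or_ge j 224 with h | h
  · exact glue t23_217 rfl j (by omega) h
  rcases lt_or_ge j 234 with h | h
  · exact glue t23_224 rfl j (by omega) h
  rcases lt_or_ge j 235 with h | h
  · exact glue t23_234 rfl j (by omega) h
  rcases lt_or_ge j 236 with h | h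
  · exact glue t23_235 rfl j (by omega) h
  rcases lt_or_ge j 251 with h | h
  · exact glue t23_236 rfl j (by omega) h
  rcases lt_or_ge j 253 with h | h
  · exact glue t23_251 rfl j (by omega) h
  rcases lt_or_ge j 256 with h | h
  · exact glue t23_253 rfl j (by omega) h
  rcases lt_or_ge j 270 with h | h
  · exact glue t23_256 rfl j (by omega) h
  rcases lt_or_ge j 271 with h | h
  · exact glue t23_270 rfl j (by omega) h
  rcases lt_or_ge j 283 with h | h
  · exact glue t23_271 rfl j (by omega) h
  rcases lt_or_ge j 295 with h | h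
  · exact glue t23_283 rfl j (by omega) h
  rcases lt_or_ge j 318 with h | h
  · exact glue t23_295 rfl j (by omega) h
  rcases lt_or_ge j 343 with h | h
  · exact glue t23_318 rfl j (by omega) h
  rcases lt_or_ge j 371 with h | h
  · exact glue t23_343 rfl j (by omega) h
  rcases lt_or_ge j 399 with h | h
  · exact glue t23_371 rfl j (by omega) h
  rcases lt_or_ge j 426 with h | h
  · exact glue t23_399 rfl j (by omega) h
  rcases lt_or_ge j 442 with h | h
  · exact glue t23_426 rfl j (by omega) h
  exact glue t23_442 rfl j (by omega) hj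

lemma rowT24 : ∀ j, j < 459 → blkT 24 j = true := by
  intro j hj
  rcases lt_or_ge j 170 with h | h
  · exact glue t24_0 rfl j (by omega) h
  rcases lt_or_ge j 188 with h | h
  · exact glue t24_170 rfl j (by omega) h
  rcases lt_or_ge j 190 with h | h
  · exact glue t24_188 rfl j (by omega) h
  rcases lt_or_ge j 204 with h | h
  · exact glue t24_190 rfl j (by omega) h
  rcases lt_or_ge j 206 with h | h
  · exact glue t24_204 rfl j (by omega) h
  rcases lt_or_ge j 208 with h | h
  · exact glue t24_206 rfl j (by omega) h
  rcases lt_or_ge j 210 with h | h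
  · exact glue t24_208 rfl j (by omega) h
  rcases lt_or_ge j 212 with h | h
  · exact glue t24_210 rfl j (by omega) h
  rcases lt_or_ge j 222 with h | h
  · exact glue t24_212 rfl j (by omega) h
  rcases lt_or_ge j 224 with h | h
  · exact glue t24_222 rfl j (by omega) h
  rcases lt_or_ge j 226 with h | h
  · exact glue t24_224 rfl j (by omega) h
  rcases lt_or_ge j 228 with h | h
  · exact glue t24_226 rfl j (by omega) h
  rcases lt_or_ge j 230 with h | h
  · exact glue t24_228 rfl j (by omega) h
  rcases lt_or_ge j 232 with h | h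
  · exact glue t24_230 rfl j (by omega) h
  rcases lt_or_ge j 240 with h | h
  · exact glue t24_232 rfl j (by omega) h
  rcases lt_or_ge j 242 with h | h
  · exact glue t24_240 rfl j (by omega) h
  rcases lt_or_ge j 244 with h | h
  · exact glue t24_242 rfl j (by omega) h
  rcases lt_or_ge j 246 with h | h
  · exact glue t24_244 rfl j (by omega) h
  rcases lt_or_ge j 248 with h | h
  · exact glue t24_246 rfl j (by omega) h
  rcases lt_or_ge j 250 with h | h
  · exact glue t24_248 rfl j (by omega) h
  rcases lt_or_ge j 256 with h | h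
  · exact glue t24_250 rfl j (by omega) h
  rcases lt_or_ge j 259 with h | h
  · exact glue t24_256 rfl j (by omega) h
  rcases lt_or_ge j 262 with h | h
  · exact glue t24_259 rfl j (by omega) h
  rcases lt_or_ge j 264 with h | h
  · exact glue t24_262 rfl j (by omega) h
  rcases lt_or_ge j 266 with h | h
  · exact glue t24_264 rfl j (by omega) h
  rcases lt_or_ge j 268 with h | h
  · exact glue t24_266 rfl j (by omega) h
  rcases lt_or_ge j 273 with h | h
  · exact glue t24_268 rfl j (by omega) h
  rcases lt_or_ge j 276 with h | h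
  · exact glue t24_273 rfl j (by omega) h
  rcases lt_or_ge j 279 with h | h
  · exact glue t24_276 rfl j (by omega) h
  rcases lt_or_ge j 282 with h | h
  · exact glue t24_279 rfl j (by omega) h
  rcases lt_or_ge j 284 with h | h
  · exact glue t24_282 rfl j (by omega) h
  rcases lt_or_ge j 286 with h | h
  · exact glue t24_284 rfl j (by omega) h
  rcases lt_or_ge j 291 with h | h
  · exact glue t24_286 rfl j (by omega) h
  rcases lt_or_ge j 295 with h | h
  · exact glue t24_291 rfl j (by omega) h
  rcases lt_or_ge j 298 with h | h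
  · exact glue t24_295 rfl j (by omega) h
  rcases lt_or_ge j 300 with h | h
  · exact glue t24_298 rfl j (by omega) h
  rcases lt_or_ge j 302 with h | h
  · exact glue t24_300 rfl j (by omega) h
  rcases lt_or_ge j 306 with h | h
  · exact glue t24_302 rfl j (by omega) h
  rcases lt_or_ge j 311 with h | h
  · exact glue t24_306 rfl j (by omega) h
  rcases lt_or_ge j 314 with h | h
  · exact glue t24_311 rfl j (by omega) h
  rcases lt_or_ge j 317 with h | h
  · exact glue t24_314 rfl j (by omega) h
  rcases lt_or_ge j 320 with h | h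
  · exact glue t24_317 rfl j (by omega) h
  rcases lt_or_ge j 324 with h | h
  · exact glue t24_320 rfl j (by omega) h
  rcases lt_or_ge j 328 with h | h
  · exact glue t24_324 rfl j (by omega) h
  rcases lt_or_ge j 331 with h | h
  · exact glue t24_328 rfl j (by omega) h
  rcases lt_or_ge j 334 with h | h
  · exact glue t24_331 rfl j (by omega) h
  rcases lt_or_ge j 336 with h | h
  · exact glue t24_334 rfl j (by omega) h
  rcases lt_or_ge j 338 with h | h
  · exact glue t24_336 rfl j (by omega) h
  rcases lt_or_ge j 342 with h | h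
  · exact glue t24_338 rfl j (by omega) h
  rcases lt_or_ge j 347 with h | h
  · exact glue t24_342 rfl j (by omega) h
  rcases lt_or_ge j 352 with h | h
  · exact glue t24_347 rfl j (by omega) h
  rcases lt_or_ge j 356 with h | h
  · exact glue t24_352 rfl j (by omega) h
  rcases lt_or_ge j 365 with h | h
  · exact glue t24_356 rfl j (by omega) h
  rcases lt_or_ge j 372 with h | h
  · exact glue t24_365 rfl j (by omega) h
  rcases lt_or_ge j 385 with h | h
  · exact glue t24_372 rfl j (by omega) h
  rcases lt_or_ge j 397 with h | h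
  · exact glue t24_385 rfl j (by omega) h
  rcases lt_or_ge j 408 with h | h
  · exact glue t24_397 rfl j (by omega) h
  rcases lt_or_ge j 424 with h | h
  · exact glue t24_408 rfl j (by omega) h
  rcases lt_or_ge j 435 with h | h
  · exact glue t24_424 rfl j (by omega) h
  exact glue t24_435 rfl j (by omega) hj

lemma rowT25 : ∀ j, j < 459 → blkT 25 j = true := by
  intro j hj
  rcases lt_or_ge j 187 with h | h
  · exact glue t25_0 rfl j (by omega) h
  rcases lt_or_ge j 357 with h | h
  · exact glue t25_187 rfl j (by omega) h
  rcases lt_or_ge j 410 with h | h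
  · exact glue t25_357 rfl j (by omega) h
  exact glue t25_410 rfl j (by omega) hj

lemma rowT26 : ∀ j, j < 459 → blkT 26 j = true := by
  intro j hj
  rcases lt_or_ge j 187 with h | h
  · exact glue t26_0 rfl j (by omega) h
  rcases lt_or_ge j 374 with h | h
  · exact glue t26_187 rfl j (by omega) h
  exact glue t26_374 rfl j (by omega) hj

lemma blkT_all : ∀ i, i < 27 → ∀ j, j < 459 → blkT i j = true := by
  intro i hi
  interval_cases i
  exacts [rowT0, rowT1, rowT2, rowT3, rowT4, rowT5, rowT6, rowT7, rowT8, rowT9, rowT10, rowT11, rowT12, rowT13, rowT14, rowT15, rowT16, rowT17, rowT18, rowT19, rowT20, rowT21, rowT22, rowT23, rowT24, rowT25, rowT26]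


lemma rowR0 : ∀ j, j < 97 → blkR 0 j = true := by
  intro j hj
  rcases lt_or_ge j 83 with h | h
  · exact glue r0_0 rfl j (by omega) h
  exact glue r0_83 rfl j (by omega) hj

lemma rowR1 : ∀ j, j < 97 → blkR 1 j = true := by
  intro j hj
  rcases lt_or_ge j 38 with h | h
  · exact glue r1_0 rfl j (by omega) h
  rcases lt_or_ge j 74 with h | h
  · exact glue r1_38 rfl j (by omega) h
  exact glue r1_74 rfl j (by omega) hj

lemma rowR2 : ∀ j, j < 97 → blkR 2 j = true := by
  intro j hj
  rcases lt_or_ge j 26 with h | h
  · exact glue r2_0 rfl j (by omega) h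
  rcases lt_or_ge j 50 with h | h
  · exact glue r2_26 rfl j (by omega) h
  rcases lt_or_ge j 79 with h | h
  · exact glue r2_50 rfl j (by omega) h
  exact glue r2_79 rfl j (by omega) hj

lemma rowR3 : ∀ j, j < 97 → blkR 3 j = true := by
  intro j hj
  rcases lt_or_ge j 19 with h | h
  · exact glue r3_0 rfl j (by omega) h
  rcases lt_or_ge j 35 with h | h
  · exact glue r3_19 rfl j (by omega) h
  rcases lt_or_ge j 52 with h | h
  · exact glue r3_35 rfl j (by omega) h
  rcases lt_or_ge j 65 with h | h
  · exact glue r3_52 rfl j (by omega) h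
  rcases lt_or_ge j 77 with h | h
  · exact glue r3_65 rfl j (by omega) h
  rcases lt_or_ge j 93 with h | h
  · exact glue r3_77 rfl j (by omega) h
  exact glue r3_93 rfl j (by omega) hj

lemma rowR4 : ∀ j, j < 97 → blkR 4 j = true := by
  intro j hj
  rcases lt_or_ge j 23 with h | h
  · exact glue r4_0 rfl j (by omega) h
  rcases lt_or_ge j 47 with h | h
  · exact glue r4_23 rfl j (by omega) h
  rcases lt_or_ge j 73 with h | h
  · exact glue r4_47 rfl j (by omega) h
  rcases lt_or_ge j 94 with h | h
  · exact glue r4_73 rfl j (by omega) h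
  exact glue r4_94 rfl j (by omega) hj

lemma rowR5 : ∀ j, j < 97 → blkR 5 j = true := by
  intro j hj
  rcases lt_or_ge j 22 with h | h
  · exact glue r5_0 rfl j (by omega) h
  rcases lt_or_ge j 45 with h | h
  · exact glue r5_22 rfl j (by omega) h
  rcases lt_or_ge j 71 with h | h
  · exact glue r5_45 rfl j (by omega) h
  rcases lt_or_ge j 92 with h | h
  · exact glue r5_71 rfl j (by omega) h
  exact glue r5_92 rfl j (by omega) hj

lemma rowR6 : ∀ j, j < 97 → blkR 6 j = true := by
  intro j hj
  rcases lt_or_ge j 20 with h | h
  · exact glue r6_0 rfl j (by omega) h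
  rcases lt_or_ge j 42 with h | h
  · exact glue r6_20 rfl j (by omega) h
  rcases lt_or_ge j 68 with h | h
  · exact glue r6_42 rfl j (by omega) h
  rcases lt_or_ge j 89 with h | h
  · exact glue r6_68 rfl j (by omega) h
  exact glue r6_89 rfl j (by omega) hj

lemma rowR7 : ∀ j, j < 97 → blkR 7 j = true := by
  intro j hj
  rcases lt_or_ge j 19 with h | h
  · exact glue r7_0 rfl j (by omega) h
  rcases lt_or_ge j 41 with h | h
  · exact glue r7_19 rfl j (by omega) h
  rcases lt_or_ge j 66 with h | h
  · exact glue r7_41 rfl j (by omega) h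
  rcases lt_or_ge j 87 with h | h
  · exact glue r7_66 rfl j (by omega) h
  exact glue r7_87 rfl j (by omega) hj

lemma rowR8 : ∀ j, j < 97 → blkR 8 j = true := by
  intro j hj
  rcases lt_or_ge j 19 with h | h
  · exact glue r8_0 rfl j (by omega) h
  rcases lt_or_ge j 40 with h | h
  · exact glue r8_19 rfl j (by omega) h
  rcases lt_or_ge j 63 with h | h
  · exact glue r8_40 rfl j (by omega) h
  rcases lt_or_ge j 82 with h | h
  · exact glue r8_63 rfl j (by omega) h
  exact glue r8_82 rfl j (by omega) hj

lemma rowR9 : ∀ j, j < 97 → blkR 9 j = true := by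
  intro j hj
  rcases lt_or_ge j 19 with h | h
  · exact glue r9_0 rfl j (by omega) h
  rcases lt_or_ge j 40 with h | h
  · exact glue r9_19 rfl j (by omega) h
  rcases lt_or_ge j 62 with h | h
  · exact glue r9_40 rfl j (by omega) h
  rcases lt_or_ge j 81 with h | h
  · exact glue r9_62 rfl j (by omega) h
  rcases lt_or_ge j 92 with h | h
  · exact glue r9_81 rfl j (by omega) h
  exact glue r9_92 rfl j (by omega) hj

lemma rowR10 : ∀ j, j < 97 → blkR 10 j = true := by
  intro j hj
  rcases lt_or_ge j 18 with h | h
  · exact glue r10_0 rfl j (by omega) h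
  rcases lt_or_ge j 38 with h | h
  · exact glue r10_18 rfl j (by omega) h
  rcases lt_or_ge j 60 with h | h
  · exact glue r10_38 rfl j (by omega) h
  rcases lt_or_ge j 79 with h | h
  · exact glue r10_60 rfl j (by omega) h
  rcases lt_or_ge j 89 with h | h
  · exact glue r10_79 rfl j (by omega) h
  exact glue r10_89 rfl j (by omega) hj

lemma rowR11 : ∀ j, j < 97 → blkR 11 j = true := by
  intro j hj
  rcases lt_or_ge j 17 with h | h
  · exact glue r11_0 rfl j (by omega) h
  rcases lt_or_ge j 37 with h | h
  · exact glue r11_17 rfl j (by omega) h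
  rcases lt_or_ge j 58 with h | h
  · exact glue r11_37 rfl j (by omega) h
  rcases lt_or_ge j 75 with h | h
  · exact glue r11_58 rfl j (by omega) h
  rcases lt_or_ge j 86 with h | h
  · exact glue r11_75 rfl j (by omega) h
  exact glue r11_86 rfl j (by omega) hj

lemma rowR12 : ∀ j, j < 97 → blkR 12 j = true := by
  intro j hj
  rcases lt_or_ge j 16 with h | h
  · exact glue r12_0 rfl j (by omega) h
  rcases lt_or_ge j 34 with h | h
  · exact glue r12_16 rfl j (by omega) h
  rcases lt_or_ge j 55 with h | h
  · exact glue r12_34 rfl j (by omega) h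
  rcases lt_or_ge j 71 with h | h
  · exact glue r12_55 rfl j (by omega) h
  rcases lt_or_ge j 83 with h | h
  · exact glue r12_71 rfl j (by omega) h
  exact glue r12_83 rfl j (by omega) hj

lemma rowR13 : ∀ j, j < 97 → blkR 13 j = true := by
  intro j hj
  rcases lt_or_ge j 15 with h | h
  · exact glue r13_0 rfl j (by omega) h
  rcases lt_or_ge j 32 with h | h
  · exact glue r13_15 rfl j (by omega) h
  rcases lt_or_ge j 52 with h | h
  · exact glue r13_32 rfl j (by omega) h
  rcases lt_or_ge j 67 with h | h
  · exact glue r13_52 rfl j (by omega) h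
  rcases lt_or_ge j 81 with h | h
  · exact glue r13_67 rfl j (by omega) h
  exact glue r13_81 rfl j (by omega) hj

lemma rowR14 : ∀ j, j < 97 → blkR 14 j = true := by
  intro j hj
  rcases lt_or_ge j 15 with h | h
  · exact glue r14_0 rfl j (by omega) h
  rcases lt_or_ge j 32 with h | h
  · exact glue r14_15 rfl j (by omega) h
  rcases lt_or_ge j 50 with h | h
  · exact glue r14_32 rfl j (by omega) h
  rcases lt_or_ge j 64 with h | h
  · exact glue r14_50 rfl j (by omega) h
  rcases lt_or_ge j 76 with h | h
  · exact glue r14_64 rfl j (by omega) h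
  rcases lt_or_ge j 79 with h | h
  · exact glue r14_76 rfl j (by omega) h
  rcases lt_or_ge j 81 with h | h
  · exact glue r14_79 rfl j (by omega) h
  exact glue r14_81 rfl j (by omega) hj

lemma rowR15 : ∀ j, j < 97 → blkR 15 j = true := by
  intro j hj
  rcases lt_or_ge j 15 with h | h
  · exact glue r15_0 rfl j (by omega) h
  rcases lt_or_ge j 31 with h | h
  · exact glue r15_15 rfl j (by omega) h
  rcases lt_or_ge j 47 with h | h
  · exact glue r15_31 rfl j (by omega) h
  rcases lt_or_ge j 60 with h | h
  · exact glue r15_47 rfl j (by omega) h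
  rcases lt_or_ge j 72 with h | h
  · exact glue r15_60 rfl j (by omega) h
  rcases lt_or_ge j 75 with h | h
  · exact glue r15_72 rfl j (by omega) h
  rcases lt_or_ge j 76 with h | h
  · exact glue r15_75 rfl j (by omega) h
  rcases lt_or_ge j 77 with h | h
  · exact glue r15_76 rfl j (by omega) h
  exact glue r15_77 rfl j (by omega) hj

lemma rowR16 : ∀ j, j < 97 → blkR 16 j = true := by
  intro j hj
  rcases lt_or_ge j 14 with h | h
  · exact glue r16_0 rfl j (by omega) h
  rcases lt_or_ge j 30 with h | h
  · exact glue r16_14 rfl j (by omega) h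
  rcases lt_or_ge j 44 with h | h
  · exact glue r16_30 rfl j (by omega) h
  rcases lt_or_ge j 57 with h | h
  · exact glue r16_44 rfl j (by omega) h
  rcases lt_or_ge j 70 with h | h
  · exact glue r16_57 rfl j (by omega) h
  rcases lt_or_ge j 72 with h | h
  · exact glue r16_70 rfl j (by omega) h
  rcases lt_or_ge j 73 with h | h
  · exact glue r16_72 rfl j (by omega) h
  rcases lt_or_ge j 74 with h | h
  · exact glue r16_73 rfl j (by omega) h
  exact glue r16_74 rfl j (by omega) hj

lemma rowR17 : ∀ j, j < 97 → blkR 17 j = true := by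
  intro j hj
  rcases lt_or_ge j 11 with h | h
  · exact glue r17_0 rfl j (by omega) h
  rcases lt_or_ge j 24 with h | h
  · exact glue r17_11 rfl j (by omega) h
  rcases lt_or_ge j 36 with h | h
  · exact glue r17_24 rfl j (by omega) h
  rcases lt_or_ge j 48 with h | h
  · exact glue r17_36 rfl j (by omega) h
  rcases lt_or_ge j 60 with h | h
  · exact glue r17_48 rfl j (by omega) h
  rcases lt_or_ge j 67 with h | h
  · exact glue r17_60 rfl j (by omega) h
  rcases lt_or_ge j 68 with h | h
  · exact glue r17_67 rfl j (by omega) h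
  rcases lt_or_ge j 69 with h | h
  · exact glue r17_68 rfl j (by omega) h
  rcases lt_or_ge j 70 with h | h
  · exact glue r17_69 rfl j (by omega) h
  rcases lt_or_ge j 71 with h | h
  · exact glue r17_70 rfl j (by omega) h
  exact glue r17_71 rfl j (by omega) hj

lemma rowR18 : ∀ j, j < 97 → blkR 18 j = true := by
  intro j hj
  rcases lt_or_ge j 8 with h | h
  · exact glue r18_0 rfl j (by omega) h
  rcases lt_or_ge j 18 with h | h
  · exact glue r18_8 rfl j (by omega) h
  rcases lt_or_ge j 28 with h | h
  · exact glue r18_18 rfl j (by omega) h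
  rcases lt_or_ge j 37 with h | h
  · exact glue r18_28 rfl j (by omega) h
  rcases lt_or_ge j 46 with h | h
  · exact glue r18_37 rfl j (by omega) h
  rcases lt_or_ge j 56 with h | h
  · exact glue r18_46 rfl j (by omega) h
  rcases lt_or_ge j 61 with h | h
  · exact glue r18_56 rfl j (by omega) h
  rcases lt_or_ge j 62 with h | h
  · exact glue r18_61 rfl j (by omega) h
  rcases lt_or_ge j 63 with h | h
  · exact glue r18_62 rfl j (by omega) h
  rcases lt_or_ge j 64 with h | h
  · exact glue r18_63 rfl j (by omega) h
  rcases lt_or_ge j 65 with h | h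
  · exact glue r18_64 rfl j (by omega) h
  rcases lt_or_ge j 66 with h | h
  · exact glue r18_65 rfl j (by omega) h
  rcases lt_or_ge j 67 with h | h
  · exact glue r18_66 rfl j (by omega) h
  exact glue r18_67 rfl j (by omega) hj

lemma rowR19 : ∀ j, j < 97 → blkR 19 j = true := by
  intro j hj
  rcases lt_or_ge j 5 with h | h
  · exact glue r19_0 rfl j (by omega) h
  rcases lt_or_ge j 11 with h | h
  · exact glue r19_5 rfl j (by omega) h
  rcases lt_or_ge j 18 with h | h
  · exact glue r19_11 rfl j (by omega) h
  rcases lt_or_ge j 25 with h | h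
  · exact glue r19_18 rfl j (by omega) h
  rcases lt_or_ge j 32 with h | h
  · exact glue r19_25 rfl j (by omega) h
  rcases lt_or_ge j 39 with h | h
  · exact glue r19_32 rfl j (by omega) h
  rcases lt_or_ge j 46 with h | h
  · exact glue r19_39 rfl j (by omega) h
  rcases lt_or_ge j 51 with h | h
  · exact glue r19_46 rfl j (by omega) h
  rcases lt_or_ge j 52 with h | h
  · exact glue r19_51 rfl j (by omega) h
  rcases lt_or_ge j 53 with h | h
  · exact glue r19_52 rfl j (by omega) h
  rcases lt_or_ge j 54 with h | h
  · exact glue r19_53 rfl j (by omega) h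
  rcases lt_or_ge j 55 with h | h
  · exact glue r19_54 rfl j (by omega) h
  rcases lt_or_ge j 56 with h | h
  · exact glue r19_55 rfl j (by omega) h
  rcases lt_or_ge j 57 with h | h
  · exact glue r19_56 rfl j (by omega) h
  rcases lt_or_ge j 58 with h | h
  · exact glue r19_57 rfl j (by omega) h
  rcases lt_or_ge j 59 with h | h
  · exact glue r19_58 rfl j (by omega) h
  rcases lt_or_ge j 60 with h | h
  · exact glue r19_59 rfl j (by omega) h
  rcases lt_or_ge j 61 with h | h
  · exact glue r19_60 rfl j (by omega) h
  rcases lt_or_ge j 63 with h | h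
  · exact glue r19_61 rfl j (by omega) h
  exact glue r19_63 rfl j (by omega) hj

lemma rowR20 : ∀ j, j < 97 → blkR 20 j = true := by
  intro j hj
  rcases lt_or_ge j 2 with h | h
  · exact glue r20_0 rfl j (by omega) h
  rcases lt_or_ge j 4 with h | h
  · exact glue r20_2 rfl j (by omega) h
  rcases lt_or_ge j 7 with h | h
  · exact glue r20_4 rfl j (by omega) h
  rcases lt_or_ge j 11 with h | h
  · exact glue r20_7 rfl j (by omega) h
  rcases lt_or_ge j 16 with h | h
  · exact glue r20_11 rfl j (by omega) h
  rcases lt_or_ge j 21 with h | h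
  · exact glue r20_16 rfl j (by omega) h
  rcases lt_or_ge j 27 with h | h
  · exact glue r20_21 rfl j (by omega) h
  rcases lt_or_ge j 32 with h | h
  · exact glue r20_27 rfl j (by omega) h
  rcases lt_or_ge j 37 with h | h
  · exact glue r20_32 rfl j (by omega) h
  rcases lt_or_ge j 40 with h | h
  · exact glue r20_37 rfl j (by omega) h
  rcases lt_or_ge j 41 with h | h
  · exact glue r20_40 rfl j (by omega) h
  rcases lt_or_ge j 42 with h | h
  · exact glue r20_41 rfl j (by omega) h
  rcases lt_or_ge j 43 with h | h
  · exact glue r20_42 rfl j (by omega) h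
  rcases lt_or_ge j 44 with h | h
  · exact glue r20_43 rfl j (by omega) h
  rcases lt_or_ge j 45 with h | h
  · exact glue r20_44 rfl j (by omega) h
  rcases lt_or_ge j 46 with h | h
  · exact glue r20_45 rfl j (by omega) h
  rcases lt_or_ge j 47 with h | h
  · exact glue r20_46 rfl j (by omega) h
  rcases lt_or_ge j 48 with h | h
  · exact glue r20_47 rfl j (by omega) h
  rcases lt_or_ge j 49 with h | h
  · exact glue r20_48 rfl j (by omega) h
  rcases lt_or_ge j 50 with h | h
  · exact glue r20_49 rfl j (by omega) h
  rcases lt_or_ge j 51 with h | h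
  · exact glue r20_50 rfl j (by omega) h
  rcases lt_or_ge j 52 with h | h
  · exact glue r20_51 rfl j (by omega) h
  rcases lt_or_ge j 53 with h | h
  · exact glue r20_52 rfl j (by omega) h
  rcases lt_or_ge j 55 with h | h
  · exact glue r20_53 rfl j (by omega) h
  exact glue r20_55 rfl j (by omega) hj

lemma rowR21 : ∀ j, j < 97 → blkR 21 j = true := by
  intro j hj
  rcases lt_or_ge j 2 with h | h
  · exact glue r21_0 rfl j (by omega) h
  rcases lt_or_ge j 5 with h | h
  · exact glue r21_2 rfl j (by omega) h
  rcases lt_or_ge j 8 with h | h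
  · exact glue r21_5 rfl j (by omega) h
  rcases lt_or_ge j 11 with h | h
  · exact glue r21_8 rfl j (by omega) h
  rcases lt_or_ge j 14 with h | h
  · exact glue r21_11 rfl j (by omega) h
  rcases lt_or_ge j 17 with h | h
  · exact glue r21_14 rfl j (by omega) h
  rcases lt_or_ge j 20 with h | h
  · exact glue r21_17 rfl j (by omega) h
  rcases lt_or_ge j 23 with h | h
  · exact glue r21_20 rfl j (by omega) h
  rcases lt_or_ge j 25 with h | h
  · exact glue r21_23 rfl j (by omega) h
  rcases lt_or_ge j 26 with h | h
  · exact glue r21_25 rfl j (by omega) h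
  rcases lt_or_ge j 27 with h | h
  · exact glue r21_26 rfl j (by omega) h
  rcases lt_or_ge j 28 with h | h
  · exact glue r21_27 rfl j (by omega) h
  rcases lt_or_ge j 29 with h | h
  · exact glue r21_28 rfl j (by omega) h
  rcases lt_or_ge j 30 with h | h
  · exact glue r21_29 rfl j (by omega) h
  rcases lt_or_ge j 31 with h | h
  · exact glue r21_30 rfl j (by omega) h
  rcases lt_or_ge j 32 with h | h
  · exact glue r21_31 rfl j (by omega) h
  rcases lt_or_ge j 33 with h | h
  · exact glue r21_32 rfl j (by omega) h
  rcases lt_or_ge j 34 with h | h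
  · exact glue r21_33 rfl j (by omega) h
  rcases lt_or_ge j 35 with h | h
  · exact glue r21_34 rfl j (by omega) h
  rcases lt_or_ge j 36 with h | h
  · exact glue r21_35 rfl j (by omega) h
  rcases lt_or_ge j 37 with h | h
  · exact glue r21_36 rfl j (by omega) h
  rcases lt_or_ge j 38 with h | h
  · exact glue r21_37 rfl j (by omega) h
  rcases lt_or_ge j 39 with h | h
  · exact glue r21_38 rfl j (by omega) h
  rcases lt_or_ge j 40 with h | h
  · exact glue r21_39 rfl j (by omega) h
  rcases lt_or_ge j 41 with h | h
  · exact glue r21_40 rfl j (by omega) h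
  rcases lt_or_ge j 42 with h | h
  · exact glue r21_41 rfl j (by omega) h
  exact glue r21_42 rfl j (by omega) hj

lemma rowR22 : ∀ j, j < 97 → blkR 22 j = true := by
  intro j hj
  rcases lt_or_ge j 1 with h | h
  · exact glue r22_0 rfl j (by omega) h
  rcases lt_or_ge j 2 with h | h
  · exact glue r22_1 rfl j (by omega) h
  rcases lt_or_ge j 3 with h | h
  · exact glue r22_2 rfl j (by omega) h
  rcases lt_or_ge j 4 with h | h
  · exact glue r22_3 rfl j (by omega) h
  rcases lt_or_ge j 5 with h | h
  · exact glue r22_4 rfl j (by omega) h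
  rcases lt_or_ge j 6 with h | h
  · exact glue r22_5 rfl j (by omega) h
  rcases lt_or_ge j 7 with h | h
  · exact glue r22_6 rfl j (by omega) h
  rcases lt_or_ge j 8 with h | h
  · exact glue r22_7 rfl j (by omega) h
  rcases lt_or_ge j 9 with h | h
  · exact glue r22_8 rfl j (by omega) h
  rcases lt_or_ge j 10 with h | h
  · exact glue r22_9 rfl j (by omega) h
  rcases lt_or_ge j 11 with h | h
  · exact glue r22_10 rfl j (by omega) h
  rcases lt_or_ge j 12 with h | h
  · exact glue r22_11 rfl j (by omega) h
  rcases lt_or_ge j 13 with h | h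
  · exact glue r22_12 rfl j (by omega) h
  rcases lt_or_ge j 14 with h | h
  · exact glue r22_13 rfl j (by omega) h
  rcases lt_or_ge j 15 with h | h
  · exact glue r22_14 rfl j (by omega) h
  rcases lt_or_ge j 16 with h | h
  · exact glue r22_15 rfl j (by omega) h
  rcases lt_or_ge j 17 with h | h
  · exact glue r22_16 rfl j (by omega) h
  rcases lt_or_ge j 18 with h | h
  · exact glue r22_17 rfl j (by omega) h
  rcases lt_or_ge j 19 with h | h
  · exact glue r22_18 rfl j (by omega) h
  rcases lt_or_ge j 20 with h | h
  · exact glue r22_19 rfl j (by omega) h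
  rcases lt_or_ge j 21 with h | h
  · exact glue r22_20 rfl j (by omega) h
  rcases lt_or_ge j 22 with h | h
  · exact glue r22_21 rfl j (by omega) h
  rcases lt_or_ge j 23 with h | h
  · exact glue r22_22 rfl j (by omega) h
  rcases lt_or_ge j 24 with h | h
  · exact glue r22_23 rfl j (by omega) h
  rcases lt_or_ge j 25 with h | h
  · exact glue r22_24 rfl j (by omega) h
  rcases lt_or_ge j 26 with h | h
  · exact glue r22_25 rfl j (by omega) h
  rcases lt_or_ge j 27 with h | h
  · exact glue r22_26 rfl j (by omega) h
  rcases lt_or_ge j 28 with h | h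
  · exact glue r22_27 rfl j (by omega) h
  rcases lt_or_ge j 29 with h | h
  · exact glue r22_28 rfl j (by omega) h
  rcases lt_or_ge j 30 with h | h
  · exact glue r22_29 rfl j (by omega) h
  exact glue r22_30 rfl j (by omega) hj

lemma rowR23 : ∀ j, j < 97 → blkR 23 j = true := by
  intro j hj
  rcases lt_or_ge j 1 with h | h
  · exact glue r23_0 rfl j (by omega) h
  rcases lt_or_ge j 2 with h | h
  · exact glue r23_1 rfl j (by omega) h
  rcases lt_or_ge j 3 with h | h
  · exact glue r23_2 rfl j (by omega) h
  rcases lt_or_ge j 4 with h | h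
  · exact glue r23_3 rfl j (by omega) h
  rcases lt_or_ge j 5 with h | h
  · exact glue r23_4 rfl j (by omega) h
  rcases lt_or_ge j 6 with h | h
  · exact glue r23_5 rfl j (by omega) h
  rcases lt_or_ge j 7 with h | h
  · exact glue r23_6 rfl j (by omega) h
  rcases lt_or_ge j 8 with h | h
  · exact glue r23_7 rfl j (by omega) h
  rcases lt_or_ge j 9 with h | h
  · exact glue r23_8 rfl j (by omega) h
  rcases lt_or_ge j 10 with h | h
  · exact glue r23_9 rfl j (by omega) h
  rcases lt_or_ge j 12 with h | h
  · exact glue r23_10 rfl j (by omega) h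
  exact glue r23_12 rfl j (by omega) hj

lemma rowR24 : ∀ j, j < 97 → blkR 24 j = true := by
  intro j hj
  exact glue r24_0 rfl j (by omega) hj

lemma rowR25 : ∀ j, j < 97 → blkR 25 j = true := by
  intro j hj
  exact glue r25_0 rfl j (by omega) hj

lemma rowR26 : ∀ j, j < 97 → blkR 26 j = true := by
  intro j hj
  exact glue r26_0 rfl j (by omega) hj

lemma blkR_all : ∀ i, i < 27 → ∀ k, k < 97 → blkR i k = true := by
  intro i hi
  interval_cases i
  exacts [rowR0, rowR1, rowR2, rowR3, rowR4, rowR5, rowR6, rowR7, rowR8, rowR9, rowR10, rowR11, rowR12, rowR13, rowR14, rowR15, rowR16, rowR17, rowR18, rowR19, rowR20, rowR21, rowR22, rowR23, rowR24, rowR25, rowR26]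


lemma rowC_all : ∀ i, i < 28 → rowC i = true := by
  intro i hi
  interval_cases i
  exacts [rowC0, rowC1, rowC2, rowC3, rowC4, rowC5, rowC6, rowC7, rowC8, rowC9, rowC10, rowC11, rowC12, rowC13, rowC14, rowC15, rowC16, rowC17, rowC18, rowC19, rowC20, rowC21, rowC22, rowC23, rowC24, rowC25, rowC26, rowC27]


lemma gG_chk : allLt (fun i => Nat.blt (gG i) (gG (Nat.succ i))) nG = true := by decide +kernel

lemma gP_chk : allLt (fun i => Nat.blt (gP i) (gP (Nat.succ i))) nP = true := by decide +kernel

lemma gV_chk : allLt (fun i => allLt (fun j => Nat.beq (gV i j 0) (gV j i 0)) nG) nG = true := by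
  decide +kernel

lemma blt_false {a b : ℕ} (h : b ≤ a) : Nat.blt a b = false := by
  rw [← Bool.not_eq_true, Nat.blt_eq]; exact not_lt.mpr h

lemma gG_mono (i : ℕ) : gG i < gG (i + 1) := by
  rcases lt_or_ge i nG with h | h
  · have := allLt_spec gG_chk i h
    rwa [Nat.blt_eq] at this
  · unfold gG
    rw [blt_false h, blt_false (h.trans (Nat.le_succ i))]
    simp only [cond_false]
    show NXs + ((i + 1) - nG) < NXs + ((i + 1 + 1) - nG)
    omega

lemma gP_mono (i : ℕ) : gP i < gP (i + 1) := by
  rcases lt_or_ge i nP with h | h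
  · have := allLt_spec gP_chk i h
    rwa [Nat.blt_eq] at this
  · unfold gP
    rw [blt_false h, blt_false (h.trans (Nat.le_succ i))]
    simp only [cond_false]
    show NXs + ((i + 1) - nP) < NXs + ((i + 1 + 1) - nP)
    omega

lemma gV_sym (i j : ℕ) : gV i j 0 = gV j i 0 := by
  have h0 : Nat.blt 0 kL = true := by decide +kernel
  rcases lt_or_ge i nG with h | h
  · rcases lt_or_ge j nG with h' | h'
    · have := allLt_spec (allLt_spec gV_chk i h) j h'
      exact Nat.eq_of_beq_eq_true this
    · unfold gV
      rw [blt_false h', h0]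
      simp
  · unfold gV
    rw [blt_false h, h0]
    simp

lemma gV_ind (i j k : ℕ) (h : kL ≤ k) : gV i j k = gV i 0 k := by
  unfold gV
  rw [blt_false h]
  rfl

theorem kok : KOK dat tN cN tC iB kL Pool.Agent.H962.KD.kN kM d1 d2 d3 d4 where
  G0 := by decide +kernel
  P0 := by decide +kernel
  Gm := gG_mono
  Pm := gP_mono
  GN := by decide +kernel
  PM := by decide +kernel
  sym := gV_sym
  ind := gV_ind
  n2 := by
    intro i j k hi hj hk hb
    have h := rowC_all i (Nat.lt_succ_of_le hi)
    unfold rowC at h
    rw [force_eq, force_eq] at h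
    have h2 := allLt_spec h j (Nat.lt_succ_of_le hj)
    rw [force_eq] at h2
    have h3 := allLt_spec h2 k (Nat.lt_succ_of_le hk)
    rw [force_eq] at h3
    rw [Bool.and_eq_true, Bool.or_eq_true, Bool.or_eq_true] at h3
    rcases h3.1 with h4 | h4
    · rw [blt_false hb] at h4; simp at h4
    · exact Nat.le_of_ble_eq_true h4
  n3 := by
    intro i j k hi hj hk hb
    have h := rowC_all i (Nat.lt_succ_of_le hi)
    unfold rowC at h
    rw [force_eq, force_eq] at h
    have h2 := allLt_spec h j (Nat.lt_succ_of_le hj)
    rw [force_eq] at h2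
    have h3 := allLt_spec h2 k (Nat.lt_succ_of_le hk)
    rw [force_eq] at h3
    rw [Bool.and_eq_true, Bool.or_eq_true, Bool.or_eq_true] at h3
    rcases h3.2 with h4 | h4
    · rw [blt_false hb] at h4; simp at h4
    · exact Nat.le_of_ble_eq_true h4
  tet := by
    intro i j k q hi hj hk _ hq
    have hjL : kL * j + k < 459 := by
      have h1 : kL * (j + 1) ≤ kL * Pool.Agent.H962.KD.kN := Nat.mul_le_mul_left _ hj
      have h2 : kL * Pool.Agent.H962.KD.kN = 459 := rfl
      have h3 : kL * (j + 1) = kL * j + kL := by ring
      omega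
    have h := blkT_all i hi (kL * j + k) hjL
    unfold blkT at h
    rw [force_eq, force_eq, force_eq, force_eq] at h
    have e1 : Nat.div (kL * j + k) kL = j := by
      show (kL * j + k) / kL = j
      rw [Nat.mul_add_div (by decide +kernel), Nat.div_eq_of_lt hk, Nat.add_zero]
    have e2 : Nat.mod (kL * j + k) kL = k := by
      show (kL * j + k) % kL = k
      rw [Nat.mul_add_mod, Nat.mod_eq_of_lt hk]
    rw [e1, e2] at h
    exact allLt_spec h q hq
  tri := by
    intro i k q hi hk hL hq
    have h := blkR_all i hi (k - kL) (by show k - kL < kM - kL; omega)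
    unfold blkR at h
    rw [force_eq, force_eq, force_eq] at h
    have e : Nat.add kL (k - kL) = k := by show kL + (k - kL) = k; omega
    rw [e, Bool.and_eq_true] at h
    rcases hq with rfl | rfl
    · exact h.1
    · exact h.2
  capA := by
    have e1 : (cN : ℝ) = 119 := by exact_mod_cast (rfl : cN = 119)
    have e2 : (tC : ℝ) = 1752 := by exact_mod_cast (rfl : tC = 1752)
    have e3 : (tN : ℝ) = 16046 := by exact_mod_cast (rfl : tN = 16046)
    unfold capP
    rw [e1, e2, e3]
    constructor <;> norm_num
  tpos := by decide +kernel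
  xs1 := by
    have e : (dat.G iB : ℝ) = 25 := by exact_mod_cast (by decide +kernel : dat.G iB = 25)
    rw [e]; norm_num
  xs2 := by
    have e : (dat.G iB : ℝ) = 25 := by exact_mod_cast (by decide +kernel : dat.G iB = 25)
    have e1 : (cN : ℝ) = 119 := by exact_mod_cast (rfl : cN = 119)
    have e2 : (tC : ℝ) = 1752 := by exact_mod_cast (rfl : tC = 1752)
    rw [e, e1, e2]; norm_num
  xs3 := by
    have e : (dat.G iB : ℝ) = 25 := by exact_mod_cast (by decide +kernel : dat.G iB = 25)
    have e1 : (cN : ℝ) = 119 := by exact_mod_cast (rfl : cN = 119)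
    have e2 : (tC : ℝ) = 1752 := by exact_mod_cast (rfl : tC = 1752)
    rw [e, e1, e2]; norm_num

end Pool.Agent.W2helper66.DT.KD
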